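import Mathlib

/-! The tail of the binomial distribution: statements of the leaves (project LW). Mathlib only. -/

set_option autoImplicit false

namespace Pool.Agent.Helper35K9.LW

open Finset
open scoped Classical

/-- the tail of the binomial distribution: `P (Bin (M, c) ≥ k)` -/
noncomputable def bk (M k : ℕ) (c : ℝ) : ℝ :=
  ∑ j ∈ Finset.Icc k M, (M.choose j : ℝ) * c ^ j * (1 - c) ^ (M - j)

/-- INC: inclusion and exclusion. If for every `A` the proportion of the `Y` with `A ⊆ s Y` is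
`c ^ |A|` up to `ε`, then the proportion of the `Y` with `k ≤ |s Y|` is at least `bk M k c - 4 ^ M ε`.

Proof. `#{Y : s Y = B} = ∑_(A ⊇ B) (-1) ^ (|A| - |B|) #{Y : A ⊆ s Y}` (inclusion and exclusion; e.g. expand
`∏_(i ∈ B) 1[i ∈ s Y] ∏_(i ∉ B) (1 - 1[i ∈ s Y])` by `Finset.prod_sub` / `Finset.prod_add`, or
`Finset.prod_one_sub_ordered`...), so it differs from `N c ^ |B| (1 - c) ^ (M - |B|)` (the same identity for
numbers: `(1 - c) ^ m = ∑_(C ⊆ univ \ B) (-c) ^ |C|`, `Finset.sum_pow_mul_eq_add_pow`) by at most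
`2 ^ (M - |B|) ε N ≤ 2 ^ M ε N`. Sum over the at most `2 ^ M` sets `B` with `|B| ≥ k`; there are
`choose M j` sets with `|B| = j`. (For `k > M` both sides are fine: `bk = 0`.) -/
def S_INC : Prop := ∀ (M k : ℕ) (c ε : ℝ), 0 ≤ ε → ∀ (α : Type) (Ω : Finset α)
  (s : α → Finset (Fin M)),
  (∀ A : Finset (Fin M), |((Ω.filter fun Y => A ⊆ s Y).card : ℝ) - c ^ A.card * (Ω.card : ℝ)| ≤
    ε * (Ω.card : ℝ)) →
  (bk M k c - 4 ^ M * ε) * (Ω.card : ℝ) ≤ ((Ω.filter fun Y => k ≤ (s Y).card).card : ℝ)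

/-- MON: the tail is strictly increasing in `c` (and the trivial facts).

Proof. `bk (M+1) (k+1) c = c * bk M k c + (1 - c) * bk M (k+1) c` (Pascal) and `bk M k c ≤ 1`,
`bk M (k+1) c ≤ bk M k c`; induction on `M`: with `k ≥ 1`,
`bk (M+1) (k+1) c' ≥ c * bk M k c' + (1 - c) * bk M (k+1) c'` as `bk M (k+1) c' ≤ bk M k c'` and `c ≤ c'`,
and the terms are monotone by induction; it is strict since `bk M k c' - bk M (k+1) c' > 0` (it is the term
`j = k`, positive for `0 < c' < 1`; for `c' = 1` treat `bk M k 1 = 1 > bk M k c` directly) or use one strict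
step through the middle point. (Or: the derivative of `bk M k` is `M (M-1 choose k-1) c^(k-1) (1-c)^(M-k) > 0`
on `(0, 1)`.) -/
def S_MON : Prop := (∀ (M k : ℕ) (c c' : ℝ), 0 < c → c < c' → c' ≤ 1 → 1 ≤ k → k ≤ M →
    bk M k c < bk M k c') ∧
  (∀ (M : ℕ) (c : ℝ), bk M M c = c ^ M) ∧ (∀ (M : ℕ) (c : ℝ), bk M 0 c = 1) ∧
  (∀ (M k : ℕ) (c : ℝ), 0 ≤ c → c ≤ 1 → 0 ≤ bk M k c ∧ bk M k c ≤ 1)

/-- LLN: the law of large numbers. Proof: Chebyshev; the mean is `M c`, the variance is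
`M c (1 - c) ≤ M / 4`; `∑_(j < (c - ε) M) … ≤ 1 / (4 ε² M)`. (`Pool.Agent.R413.MQ.Bin` has `cheb`; in Mathlib
the second moment is in `bernsteinPolynomial.variance`.) -/
def S_LLN : Prop := ∀ c : ℝ, 0 ≤ c → c ≤ 1 → ∀ ε : ℝ, 0 < ε → ∃ M₀ : ℕ, ∀ M : ℕ, M₀ ≤ M →
  ∀ k : ℕ, (k : ℝ) ≤ (c - ε) * M → 1 - ε ≤ bk M k c

end Pool.Agent.Helper35K9.LW
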