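import Pool.Agent.Helper35K9.TW.Kyp
import Pool.Agent.Helper35K9.LW.Bxq

/-! The sets of primes are distributed over boxes: at least `k` nondegenerate unions. -/

set_option autoImplicit false

namespace Pool.Agent.Helper35K9.LW

open Pool.Agent.Y697.PQ
open Pool.Agent.Helper35K9.TW.PQ

open Finset Module
open Pool.Agent.Y697.MQ (leg OP Pr Pr_prod gA)
open Pool.Agent.Helper35K9.TW
open Pool.Agent.Y697.PP
open Pool.Agent.Helper35K9.TW.PP
open scoped Classical

/-- the number of the subsets `U` of `P` such that `S ∪ U` is nondegenerate -/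
noncomputable def gdc (P S : Finset GaussianInt) : ℕ :=
  (P.powerset.filter fun U => (Mt gA gL (S ∪ U)).det ≠ 0).card

/-- the set is disjoint to `P` and at least `k` of its unions with subsets of `P` are nondegenerate -/
def Ej (k : ℕ) (P S : Finset GaussianInt) : Prop := Disjoint S P ∧ k ≤ gdc P S

theorem per_keyQ {P : Finset GaussianInt} (hPO : ∀ p ∈ P, OP p) {κ₀ R : ℕ} {ε : ℝ}
    (hR : HK (2 ^ P.card) κ₀ R ε) {C : ℝ} (hC : 1 ≤ C)
    (hbil : ∀ (S T : Finset GaussianInt) (A B z : ℕ)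
      (c d : GaussianInt → ℝ), (∀ p ∈ S, OP p) → (∀ p ∈ T, OP p) → 1 ≤ z → z ≤ A → z ≤ B →
      (∀ p ∈ S, nm p ≤ A) → (∀ p ∈ T, nm p ≤ B) → (∀ p, |c p| ≤ 1) → (∀ p, |d p| ≤ 1) →
      (TT S T c d) ^ 32 * z ≤ C * ((A : ℝ) * B) ^ 32)
    {X z H K : ℕ} (hH : 1 ≤ H) (hz : 1 ≤ z) (hPz : ∀ p ∈ P, nm p ≤ z) (hPK : P.card ≤ K)
    {κ : ℝ} (hκ : 0 ≤ κ) (hκz : C ≤ κ ^ 32 * z) {A₀ B₀ : ℕ}
    (hA₀ : R + 2 + 2 * (B₀ + P.card) ≤ A₀) (hc : 0 ≤ bk (2 ^ P.card) κ₀ gi - ε)
    {S₀ : Finset GaussianInt} {J : Finset ℕ} (hkey : (S₀, J) ∈ (RR X z H K).image (ky z H)) :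
    (bk (2 ^ P.card) κ₀ gi - ε) * (((RR X z H K).filter fun S => ky z H S = (S₀, J) ∧
      Glb P A₀ B₀ z S).card : ℝ) -
      (2 ^ (3 * K ^ 2 + K) * 10 ^ K * κ) * (X / NS S₀) ≤
      (((RR X z H K).filter fun S => ky z H S = (S₀, J) ∧ Ej κ₀ P S).card : ℝ) := by
  have hkey' := hkey
  rw [Finset.mem_image] at hkey'
  obtain ⟨W, hW, hWk⟩ := hkey'
  unfold RR at hW
  rw [Finset.mem_filter, mem_SS, hWk] at hW
  obtain ⟨⟨hWO, hWX⟩, hWI, hWK, hWN⟩ := hW
  simp only at hWK hWN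
  have hS₀ : sm z W = S₀ := congrArg Prod.fst hWk
  have hJ : (la z W).image (jj H) = J := congrArg Prod.snd hWk
  have h₀O : ∀ q ∈ S₀, OP q := by
    intro q hq
    rw [← hS₀] at hq
    exact hWO q (Finset.mem_filter.1 hq).1
  have h₀ : ∀ q ∈ S₀, nm q ≤ z := by
    intro q hq
    rw [← hS₀] at hq
    exact (Finset.mem_filter.1 hq).2
  have hN0 : (0 : ℝ) < NS S₀ := by exact_mod_cast NS_pos h₀O
  have hErr : (0 : ℝ) ≤ (2 ^ (3 * K ^ 2 + K) * 10 ^ K * κ) * (X / NS S₀) := by positivity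
  -- trivial cases
  by_cases hne : ∃ S, S ∈ (RR X z H K).filter fun S => ky z H S = (S₀, J) ∧ Glb P A₀ B₀ z S
  swap
  · have : (RR X z H K).filter (fun S => ky z H S = (S₀, J) ∧ Glb P A₀ B₀ z S) = ∅ := by
      rw [Finset.eq_empty_iff_forall_notMem]
      exact fun S hS => hne ⟨S, hS⟩
    rw [this, Finset.card_empty, Nat.cast_zero, mul_zero, zero_sub]
    have h1 : (0 : ℝ) ≤ (((RR X z H K).filter fun S => ky z H S = (S₀, J) ∧
      Ej κ₀ P S).card : ℝ) := Nat.cast_nonneg _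
    linarith
  obtain ⟨S', hS'⟩ := hne
  rw [Finset.mem_filter] at hS'
  obtain ⟨hS'R, hS'k, hS'G⟩ := hS'
  have hs1 : sm z S' = S₀ := congrArg Prod.fst hS'k
  have hs2 : (la z S').image (jj H) = J := congrArg Prod.snd hS'k
  have hS'I : Set.InjOn (jj H) (la z S' : Set GaussianInt) := by
    unfold RR at hS'R
    exact (Finset.mem_filter.1 hS'R).2.1
  have hd₀ : Disjoint S₀ P := by
    rw [← hs1]
    exact hS'G.1.mono_left (Finset.filter_subset _ _)
  have hcS₀ : S₀.card ≤ B₀ := by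
    rw [← hs1]
    exact hS'G.2.2.2.1
  have hcJ₀ : A₀ ≤ J.card := by
    rw [← hs2, Finset.card_image_of_injOn hS'I]
    exact hS'G.2.2.2.2
  have h1 := key_bij hH hkey (fun S => Glb P A₀ B₀ z S)
  have h2 := key_bij hH hkey (fun S => Ej κ₀ P S)
  have hdisP : ∀ p : J → GaussianInt, (∀ i : J, p i ∈ CC z H i) →
      Disjoint (S₀ ∪ univ.image p) P := by
    intro p hp
    rw [Finset.disjoint_left]
    intro q hq hqP
    rw [Finset.mem_union, Finset.mem_image] at hq
    rcases hq with hq | ⟨i, -, rfl⟩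
    · exact Finset.disjoint_left.1 hd₀ hq hqP
    · have := ((mem_CC hH).1 (hp i)).2.1
      have := hPz _ hqP
      omega
  have h3 : (Fintype.piFinset fun i : J => CC z H i).filter
      (fun p => Glb P A₀ B₀ z (S₀ ∪ univ.image p)) =
      (Fintype.piFinset fun i : J => CC z H i).filter (fun p =>
        Lg (S₀ ∪ P) (fun i => lab (S₀ ∪ P) (p i)) ∧ ∀ e ⊆ P, e.Nonempty →
          A₀ ≤ (univ.filter fun i => ∑ v ∈ e, gA v (p i) = 1).card) := by
    apply Finset.filter_congr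
    intro p hp
    rw [Fintype.mem_piFinset] at hp
    have hpinj := inj_fill hH hp
    unfold Glb LgM
    rw [sm_fill hH h₀ hp, la_fill hH h₀ hp, Lg_iff]
    have h4 : ∀ e : Finset GaussianInt,
        ((univ.image p).filter fun q => ∑ v ∈ e, gA v q = 1).card =
        (univ.filter fun i => ∑ v ∈ e, gA v (p i) = 1).card := by
      intro e
      rw [Finset.filter_image, Finset.card_image_of_injective _ hpinj]
    have h5 : (univ.image p).card = J.card := by
      rw [Finset.card_image_of_injective _ hpinj, Finset.card_univ, Fintype.card_coe]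
    constructor
    · rintro ⟨-, h6, h7, -, -⟩
      exact ⟨h6, fun e he hne => by rw [← h4]; exact h7 e he hne⟩
    · rintro ⟨h6, h7⟩
      exact ⟨hdisP p hp, h6, fun e he hne => by rw [h4]; exact h7 e he hne, hcS₀,
        by rw [h5]; exact hcJ₀⟩
  rw [h3] at h1
  have hzX : ∀ i : J, z ≤ XX H i := by
    rintro ⟨i, h4⟩
    rw [← hJ, Finset.mem_image] at h4
    obtain ⟨q, hq, hqi⟩ := h4
    have h5 := nm_le_XX hH (hWO q (Finset.mem_filter.1 hq).1)
    rw [hqi] at h5
    have h6 := (Finset.mem_filter.1 hq).2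
    show z ≤ XX H i
    omega
  have hcU : (S₀ ∪ P).card = S₀.card + P.card := Finset.card_union_of_disjoint hd₀
  have h4 := boxQ (ι := J) (P := P) hR hC hbil (S₀ := S₀) (fun q hq => by
      rw [Finset.mem_union] at hq
      rcases hq with h | h
      · exact h₀O q h
      · exact hPO q h) hd₀ (C := fun i : J => CC z H i)
    (fun i p hp => ((mem_CC hH).1 hp).1)
    (fun i j hij => by
      rw [Finset.disjoint_left]
      intro p hp hp'
      have h5 := ((mem_CC hH).1 hp).2.2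
      have h6 := ((mem_CC hH).1 hp').2.2
      exact hij (Subtype.ext (h5.symm.trans h6)))
    (fun i p hp hp' => by
      have h5 := ((mem_CC hH).1 hp).2.1
      rw [Finset.mem_union] at hp'
      rcases hp' with h | h
      · have h6 := h₀ p h
        omega
      · have h6 := hPz p h
        omega)
    (X := fun i : J => XX H i) hz hzX
    (fun i p hp => by
      have h5 := nm_le_XX hH ((mem_CC hH).1 hp).1
      rw [((mem_CC hH).1 hp).2.2] at h5
      exact h5) hκ hκz (A₀ := A₀) (by omega) (by rw [Fintype.card_coe]; exact hcJ₀)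
  rw [h1] at h4
  refine le_trans ?_ (h4.trans (le_of_eq ?_))
  swap
  · rw [← h2]
    congr 2
    ext p
    simp only [Finset.mem_filter]
    refine and_congr_right fun hp => ?_
    rw [Fintype.mem_piFinset] at hp
    have h5 : ∀ U : Finset GaussianInt, S₀ ∪ U ∪ univ.image p = S₀ ∪ univ.image p ∪ U := by
      intro U
      rw [Finset.union_assoc, Finset.union_comm U, ← Finset.union_assoc]
    have h6 : (P.powerset.filter fun U => (Mt gA gL (S₀ ∪ U ∪ univ.image p)).det ≠ 0).card =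
        gdc P (S₀ ∪ univ.image p) := by
      unfold gdc
      congr 1
      exact Finset.filter_congr fun U _ => by rw [h5]
    unfold Ej
    exact ⟨fun h7 => ⟨hdisP p hp, h7.trans (le_of_eq h6)⟩, fun h7 => h7.2.trans (le_of_eq h6.symm)⟩
  apply sub_le_sub_left
  -- the error
  have hJK : J.card ≤ K := by omega
  have hSK : S₀.card ≤ K := by omega
  have hcJ : Fintype.card J = J.card := Fintype.card_coe J
  have hEE : (EE J).card ≤ K * K := by
    unfold EE
    refine (Finset.card_filter_le _ _).trans ?_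
    rw [Finset.card_univ, Fintype.card_prod, hcJ]
    exact Nat.mul_le_mul hJK hJK
  have hprod : ∏ j : J, (10 * (XX H j : ℝ)) ≤ 10 ^ K * (X / NS S₀) := by
    rw [Finset.prod_mul_distrib, Finset.prod_const, Finset.card_univ, hcJ]
    have h5 : ∏ j : J, (XX H j : ℝ) = ((∏ k ∈ J, XX H k : ℕ) : ℝ) := by
      rw [← Finset.prod_coe_sort J (fun k => XX H k)]
      push_cast
      rfl
    have h6 : ((∏ k ∈ J, XX H k : ℕ) : ℝ) ≤ X / NS S₀ := by
      rw [le_div_iff₀ hN0, mul_comm]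
      exact_mod_cast hWN
    rw [h5]
    have h7 : (10 : ℝ) ^ J.card ≤ 10 ^ K := pow_le_pow_right₀ (by norm_num) hJK
    gcongr
  have h5 : ((2 : ℝ) ^ ((S₀ ∪ P).card + 1)) ^ (Fintype.card J) ≤ 2 ^ ((2 * K + 1) * K) := by
    rw [hcJ, ← pow_mul]
    exact pow_le_pow_right₀ (by norm_num) (Nat.mul_le_mul (by omega) hJK)
  have h6 : (2 : ℝ) ^ (EE J).card ≤ 2 ^ (K * K) := pow_le_pow_right₀ (by norm_num) hEE
  have h7 : 0 ≤ ∏ j : J, (10 * (XX H j : ℝ)) := Finset.prod_nonneg fun _ _ => by positivity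
  calc ((2 : ℝ) ^ ((S₀ ∪ P).card + 1)) ^ (Fintype.card J) *
      (2 ^ (EE J).card * (κ * ∏ j : J, (10 * (XX H j : ℝ)))) ≤
      2 ^ ((2 * K + 1) * K) * (2 ^ (K * K) * (κ * (10 ^ K * (X / NS S₀)))) := by gcongr
    _ = (2 ^ (3 * K ^ 2 + K) * 10 ^ K * κ) * (X / NS S₀) := by
        have : (2 : ℝ) ^ (3 * K ^ 2 + K) = 2 ^ ((2 * K + 1) * K) * 2 ^ (K * K) := by
          rw [← pow_add]
          congr 1
          ring
        rw [this]
        ring

theorem main_sumQ {P : Finset GaussianInt} (hPO : ∀ p ∈ P, OP p) {κ₀ R : ℕ} {ε : ℝ}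
    (hR : HK (2 ^ P.card) κ₀ R ε) {C : ℝ} (hC : 1 ≤ C)
    (hbil : ∀ (S T : Finset GaussianInt) (A B z : ℕ)
      (c d : GaussianInt → ℝ), (∀ p ∈ S, OP p) → (∀ p ∈ T, OP p) → 1 ≤ z → z ≤ A → z ≤ B →
      (∀ p ∈ S, nm p ≤ A) → (∀ p ∈ T, nm p ≤ B) → (∀ p, |c p| ≤ 1) → (∀ p, |d p| ≤ 1) →
      (TT S T c d) ^ 32 * z ≤ C * ((A : ℝ) * B) ^ 32)
    {X z H K : ℕ} (hX : 1 ≤ X) (hH : 1 ≤ H) (hz : 1 ≤ z) (hPz : ∀ p ∈ P, nm p ≤ z)
    (hPK : P.card ≤ K)
    {κ : ℝ} (hκ : 0 ≤ κ) (hκz : C ≤ κ ^ 32 * z) {A₀ B₀ : ℕ}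
    (hA₀ : R + 2 + 2 * (B₀ + P.card) ≤ A₀) (hc : 0 ≤ bk (2 ^ P.card) κ₀ gi - ε)
    {N : ℕ} (hN : (H : ℝ) * Real.log X < N) :
    (bk (2 ^ P.card) κ₀ gi - ε) * (((RR X z H K).filter fun S => Glb P A₀ B₀ z S).card : ℝ) -
      (N + 1) ^ K * ((2 ^ (3 * K ^ 2 + K) * 10 ^ K * κ) * (X * (40 * (1 + Real.log X)))) ≤
      (((SS X).filter fun S => Ej κ₀ P S).card : ℝ) := by
  set T := (RR X z H K).image (ky z H) with hT
  set B : ℝ := 2 ^ (3 * K ^ 2 + K) * 10 ^ K * κ with hB
  have hB0 : 0 ≤ B := by positivity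
  have hfib : ∀ P : Finset GaussianInt → Prop, (((RR X z H K).filter fun S => P S).card : ℝ) =
      ∑ k ∈ T, (((RR X z H K).filter fun S => ky z H S = k ∧ P S).card : ℝ) := by
    intro P
    rw [Finset.card_eq_sum_card_fiberwise (f := ky z H) (t := T) (by
      intro S hS
      rw [Finset.mem_coe, Finset.mem_filter] at hS
      exact Finset.mem_coe.2 (Finset.mem_image_of_mem _ hS.1))]
    push_cast
    refine Finset.sum_congr rfl fun k _ => ?_
    congr 2
    ext S
    simp only [Finset.mem_filter]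
    tauto
  have h1 : (((RR X z H K).filter fun S => Ej κ₀ P S).card : ℝ) ≤
      (((SS X).filter fun S => Ej κ₀ P S).card : ℝ) := by
    have : (RR X z H K).filter (fun S => Ej κ₀ P S) ⊆
        (SS X).filter fun S => Ej κ₀ P S := by
      intro S hS
      rw [Finset.mem_filter] at hS ⊢
      exact ⟨(Finset.mem_filter.1 hS.1).1, hS.2⟩
    exact_mod_cast Finset.card_le_card this
  refine le_trans ?_ h1
  rw [hfib (fun S => Ej κ₀ P S), hfib (fun S => Glb P A₀ B₀ z S), Finset.mul_sum]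
  have h2 : ∑ k ∈ T, ((bk (2 ^ P.card) κ₀ gi - ε) * (((RR X z H K).filter fun S => ky z H S = k ∧
      Glb P A₀ B₀ z S).card : ℝ) - B * (X / NS k.1)) ≤
      ∑ k ∈ T, (((RR X z H K).filter fun S => ky z H S = k ∧
        Ej κ₀ P S).card : ℝ) := by
    refine Finset.sum_le_sum fun k hk => ?_
    obtain ⟨S₀, J⟩ := k
    exact per_keyQ hPO hR hC hbil hH hz hPz hPK hκ hκz hA₀ hc hk
  refine le_trans ?_ h2
  rw [Finset.sum_sub_distrib]
  apply sub_le_sub_left
  have hsub : T ⊆ (SS X) ×ˢ ((Finset.range N).powerset.filter fun J => J.card ≤ K) := by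
    intro k hk
    rw [hT, Finset.mem_image] at hk
    obtain ⟨S, hS, rfl⟩ := hk
    unfold RR at hS
    rw [Finset.mem_filter] at hS
    obtain ⟨hS1, hS2, hS3, hS4⟩ := hS
    have hS5 := mem_SS.1 hS1
    rw [Finset.mem_product, Finset.mem_filter, Finset.mem_powerset]
    refine ⟨SS_sub hS1 (Finset.filter_subset _ _), ?_, by omega⟩
    intro j hj
    unfold ky at hj
    rw [Finset.mem_image] at hj
    obtain ⟨q, hq, rfl⟩ := hj
    have hqS := (Finset.mem_filter.1 hq).1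
    have hqO := hS5.1 q hqS
    have hqX : nm q ≤ X := by
      have := NS_mono hS5.1 (Finset.singleton_subset_iff.2 hqS)
      have e : NS {q} = nm q := by
        unfold NS
        rw [Finset.prod_singleton]
      rw [e] at this
      exact this.trans hS5.2
    rw [Finset.mem_range]
    have h3 : ((jj H q : ℕ) : ℝ) < N := by
      refine lt_of_le_of_lt (Nat.floor_le (mul_nonneg (Nat.cast_nonneg _) (log_nm_pos hqO).le)) ?_
      refine lt_of_le_of_lt ?_ hN
      refine mul_le_mul_of_nonneg_left ?_ (Nat.cast_nonneg _)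
      exact Real.log_le_log (by exact_mod_cast nm_pos hqO.pr.ne_zero) (by exact_mod_cast hqX)
    exact_mod_cast h3
  have h3 : ∑ k ∈ T, B * (X / NS k.1) ≤
      ∑ k ∈ (SS X) ×ˢ ((Finset.range N).powerset.filter fun J => J.card ≤ K), B * (X / NS k.1) :=
    Finset.sum_le_sum_of_subset_of_nonneg hsub fun _ _ _ => by positivity
  refine h3.trans ?_
  rw [Finset.sum_product]
  simp only [Finset.sum_const, nsmul_eq_mul]
  rw [← Finset.mul_sum]
  have h4 : ((((Finset.range N).powerset.filter fun J => J.card ≤ K).card : ℕ) : ℝ) ≤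
      (N + 1) ^ K := by exact_mod_cast card_sub N K
  have h5 : ∑ S ∈ SS X, B * (X / NS S) ≤ B * (X * (40 * (1 + Real.log X))) := by
    have h6 : ∀ S ∈ SS X, B * ((X : ℝ) / NS S) = B * X * (1 / NS S) := by
      intro S _
      ring
    rw [Finset.sum_congr rfl h6, ← Finset.mul_sum]
    have h7 := mul_le_mul_of_nonneg_left (harm_SS hX) (mul_nonneg hB0 (Nat.cast_nonneg X))
    refine h7.trans (le_of_eq ?_)
    ring
  have h6 : 0 ≤ ∑ S ∈ SS X, B * ((X : ℝ) / NS S) := Finset.sum_nonneg fun _ _ => by positivity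
  gcongr

end Pool.Agent.Helper35K9.LW
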