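import Pool.Agent.Helper35K9.TW.Mstp
import Pool.Agent.Helper35K9.LW.Kyq

/-! The main inequality with all error terms: at least `k` nondegenerate unions. -/

set_option autoImplicit false

namespace Pool.Agent.Helper35K9.LW

open Pool.Agent.Y697.PQ
open Pool.Agent.Helper35K9.TW.PQ

open Finset
open Pool.Agent.Y697.MQ (leg OP Pr Pr_prod gA)
open Pool.Agent.Helper35K9.TW
open Pool.Agent.Y697.PP
open Pool.Agent.Helper35K9.TW.PP
open scoped Classical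

theorem masterQ {P : Finset GaussianInt} (hPO : ∀ p ∈ P, OP p) {κ₀ R : ℕ} {ε : ℝ}
    (hR : HK (2 ^ P.card) κ₀ R ε) {C : ℝ} (hC : 1 ≤ C)
    (hbil : ∀ (S T : Finset GaussianInt) (A B z : ℕ)
      (c d : GaussianInt → ℝ), (∀ p ∈ S, OP p) → (∀ p ∈ T, OP p) → 1 ≤ z → z ≤ A → z ≤ B →
      (∀ p ∈ S, nm p ≤ A) → (∀ p ∈ T, nm p ≤ B) → (∀ p, |c p| ≤ 1) → (∀ p, |d p| ≤ 1) →
      (TT S T c d) ^ 32 * z ≤ C * ((A : ℝ) * B) ^ 32)
    {X z H K : ℕ} (V : ℕ) (hX : 1 ≤ X) (hH : 1 ≤ H) (hz : 1 ≤ z) (hPz : ∀ p ∈ P, nm p ≤ z)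
    (hPK : P.card ≤ K) {κ : ℝ} (hκ : 0 ≤ κ) (hκz : C ≤ κ ^ 32 * z) {A₀ B₀ : ℕ}
    (hA₀ : R + 2 + 2 * (B₀ + P.card) ≤ A₀) (hVA : A₀ ≤ V) {c₁ : ℝ}
    (hc : c₁ = bk (2 ^ P.card) κ₀ gi - ε) (hc0 : 0 ≤ c₁) (hc1 : c₁ ≤ 1)
    {N : ℕ} (hN : (H : ℝ) * Real.log X < N) :
    c₁ * (((SS X).filter fun S => Disjoint S P).card : ℝ) ≤
      (((SS X).filter fun S => Ej κ₀ P S).card : ℝ) +
      (400 * X * (1 + Real.log X) / 2 ^ K +
      (6 * X * Real.sqrt (K / H) + 12 * Real.sqrt X) +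
      400 * X * (1 + Real.log X) * (15 / Real.sqrt H + 40 / Real.sqrt z) +
      2 ^ P.card * (1 + Real.log (NS P)) *
        (35840000 * X * (1 + Real.log (z ^ K : ℕ)) ^ 3 / 2 ^ V) +
      (((SS X).filter fun S => (la z S).card < V).card : ℝ) +
      2 ^ P.card * (1 + Real.log (NS P)) * (448000 * X * (1 + Real.log (z ^ K : ℕ)) *
        (2 * (1 + lp X)) ^ A₀) / 2 ^ V +
      16000 * X * (1 + Real.log (z ^ K : ℕ)) ^ 2 / 2 ^ B₀ +
      (N + 1) ^ K * ((2 ^ (3 * K ^ 2 + K) * 10 ^ K * κ) * (X * (40 * (1 + Real.log X))))) := by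
  have hZ1 : 1 ≤ z ^ K := Nat.one_le_pow _ _ hz
  have h0 := coverP P X z H K V A₀ B₀ hz hVA
  have h1 := main_sumQ hPO hR hC hbil hX hH hz hPz hPK hκ hκz hA₀ (by rw [← hc]; exact hc0) hN
  rw [← hc] at h1
  have h2 := many hX K
  have h3 := cut_count (z := z) (K := K) hX hH
  have h4 := coll_count hX hH hz
  have h5 := bad_countP hPO (X := X) (z := z) (Z := z ^ K) (V := V) hZ1 hPz
  have h6 := bad_sign hPO (X := X) (z := z) (Z := z ^ K) (V := V) hZ1 hPz hVA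
  have h7 := bad_small (X := X) (z := z) (Z := z ^ K) (B₀ := B₀) hZ1
  have h2' : (((SS X).filter fun S => K < S.card).card : ℝ) ≤
      400 * X * (1 + Real.log X) / 2 ^ K := by
    rw [le_div_iff₀ (by positivity)]
    exact h2
  have h5' := (le_div_iff₀ (by positivity)).2 h5
  rw [mul_div_assoc] at h5'
  have h6' := (le_div_iff₀ (by positivity)).2 h6
  have h7' := (le_div_iff₀ (by positivity)).2 h7
  set n0 : ℝ := (((SS X).filter fun S => Disjoint S P).card : ℝ) with hn0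
  set n1 : ℝ := (((RR X z H K).filter fun S => Glb P A₀ B₀ z S).card : ℝ) with hn1
  set n2 : ℝ := (((SS X).filter fun S => K < S.card).card : ℝ) with hn2
  set n3 : ℝ := (((SS X).filter fun S => S.card ≤ K ∧
        X < NS (sm z S) * ∏ p ∈ la z S, XX H (jj H p)).card : ℝ) with hn3
  set n4 : ℝ := (((SS X).filter fun S =>
      ¬ Set.InjOn (jj H) (la z S : Set GaussianInt)).card : ℝ) with hn4
  set n5 : ℝ := (((SS X).filter fun S => Disjoint S P ∧ ¬ LgS (sm z S ∪ P) (la z S) ∧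
      NS (sm z S) ≤ z ^ K ∧ V ≤ (la z S).card).card : ℝ) with hn5
  set n6 : ℝ := (((SS X).filter fun S => (la z S).card < V).card : ℝ) with hn6
  set n7 : ℝ := (((SS X).filter fun S => ¬ LgM P (la z S) A₀ ∧ NS (sm z S) ≤ z ^ K ∧
      V ≤ (la z S).card).card : ℝ) with hn7
  set n8 : ℝ := (((SS X).filter fun S => B₀ < (sm z S).card ∧
      NS (sm z S) ≤ z ^ K).card : ℝ) with hn8
  have h0' : n0 ≤ n1 + n2 + n3 + n4 + n5 + n6 + n7 + n8 := by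
    rw [hn0, hn1, hn2, hn3, hn4, hn5, hn6, hn7, hn8]
    exact_mod_cast h0
  have g2 : 0 ≤ n2 := Nat.cast_nonneg _
  have g3 : 0 ≤ n3 := Nat.cast_nonneg _
  have g4 : 0 ≤ n4 := Nat.cast_nonneg _
  have g5 : 0 ≤ n5 := Nat.cast_nonneg _
  have g6 : 0 ≤ n6 := Nat.cast_nonneg _
  have g7 : 0 ≤ n7 := Nat.cast_nonneg _
  have g8 : 0 ≤ n8 := Nat.cast_nonneg _
  have k1 : c₁ * n0 ≤ c₁ * n1 + (n2 + n3 + n4 + n5 + n6 + n7 + n8) := by
    have e1 := mul_le_mul_of_nonneg_left h0' hc0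
    have e2 : c₁ * (n2 + n3 + n4 + n5 + n6 + n7 + n8) ≤ n2 + n3 + n4 + n5 + n6 + n7 + n8 :=
      mul_le_of_le_one_left (by linarith) hc1
    linarith
  linarith

end Pool.Agent.Helper35K9.LW
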