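import Pool.Agent.Helper35K9.TW.Asyp
import Pool.Agent.Helper35K9.LW.Mstq

/-! The asymptotic lower bound: at least `k` nondegenerate unions. -/

set_option autoImplicit false

namespace Pool.Agent.Helper35K9.LW

open Pool.Agent.Y697.PQ
open Pool.Agent.Helper35K9.TW.PQ

open Finset Filter
open Pool.Agent.Y697.MQ (leg OP Pr Pr_prod gA)
open Pool.Agent.Helper35K9.TW
open Pool.Agent.Y697.PP
open Pool.Agent.Helper35K9.TW.PP
open scoped Classical

/-- **The positive proportion.** -/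
theorem many_Ej (hinc : S_INC) (hmon : S_MON) {P : Finset GaussianInt} (hPO : ∀ p ∈ P, OP p)
    {κ₀ : ℕ} (hk1 : 1 ≤ κ₀) (hk2 : κ₀ ≤ 2 ^ P.card) : ∀ᶠ X : ℕ in atTop,
    bk (2 ^ P.card) κ₀ 0.419 * (((SS X).filter fun S => Disjoint S P).card : ℝ) ≤
      (((SS X).filter fun S => Ej κ₀ P S).card : ℝ) := by
  set M : ℕ := 2 ^ P.card with hM
  have hlt : bk M κ₀ 0.419 < bk M κ₀ gi :=
    hmon.1 M κ₀ 0.419 gi (by norm_num) (lt_of_lt_of_le (by norm_num) gi_ge) gi_le hk1 hk2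
  set δ : ℝ := (bk M κ₀ gi - bk M κ₀ 0.419) / 2 with hδ
  have hδ0 : 0 < δ := by rw [hδ]; linarith
  have hgi0 : 0 ≤ gi := le_trans (by norm_num) gi_ge
  have hgM : bk M κ₀ gi ≤ 1 := (hmon.2.2.2 M κ₀ gi hgi0 gi_le).2
  have h419 : (0 : ℝ) ≤ bk M κ₀ 0.419 := (hmon.2.2.2 M κ₀ 0.419 (by norm_num) (by norm_num)).1
  obtain ⟨R, hR⟩ := exists_HK hinc M κ₀ hδ0
  set c₁ : ℝ := bk M κ₀ gi - δ with hc₁
  have hc0 : 0 ≤ c₁ := by rw [hc₁, hδ]; linarith
  have hc1 : c₁ ≤ 1 := by rw [hc₁]; linarith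
  obtain ⟨C, hC, hbil⟩ := bil
  obtain ⟨D, hD, Z₀, hZ₀, hmer⟩ := mertens
  have hNP : 0 < NS P := NS_pos hPO
  have hlP : 0 ≤ Real.log (NS P) := Real.log_nonneg (by exact_mod_cast hNP)
  set c₀ : ℝ := 2 ^ P.card * (1 + Real.log (NS P)) with hc₀
  have hc₀0 : 0 ≤ c₀ := by positivity
  set r : ℕ := R + 2 + 2 * P.card with hr
  have hT := (TP_tendsto c₀ C hD r).comp eL_tendsto
  set η : ℝ := δ / (2 ^ P.card * 65536000) with hη
  have hη0 : 0 < η := by positivity
  have h1 : ∀ᶠ X : ℕ in atTop, TP c₀ C D r (eL X) < η := hT.eventually (gt_mem_nhds hη0)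
  have h2 : ∀ᶠ X : ℕ in atTop, 4 ≤ eL X := eL_tendsto.eventually_ge_atTop 4
  have h3 : ∀ᶠ X : ℕ in atTop, 4 * Real.log D ≤ eL X := eL_tendsto.eventually_ge_atTop _
  have h4 : ∀ᶠ X : ℕ in atTop, 16 * eL X ^ 3 ≤ Real.exp (eL X / 2) := by
    have e1 : Tendsto (fun L : ℝ => L ^ 3 * Real.exp (-(L / 2))) atTop (nhds 0) :=
      pow_exp_tendsto 3 (by norm_num)
    have e2 : ∀ᶠ L : ℝ in atTop, L ^ 3 * Real.exp (-(L / 2)) < 1 / 16 :=
      e1.eventually (gt_mem_nhds (by norm_num))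
    have e3 : ∀ᶠ L : ℝ in atTop, 16 * L ^ 3 ≤ Real.exp (L / 2) := by
      refine e2.mono fun L hL => ?_
      rw [Real.exp_neg, ← div_eq_mul_inv, div_lt_iff₀ (Real.exp_pos _)] at hL
      linarith
    exact eL_tendsto.eventually e3
  have h5 : ∀ᶠ X : ℕ in atTop, ((Z₀ : ℝ) + NS P + P.card) ≤ eL X :=
    eL_tendsto.eventually_ge_atTop _
  have h7 : ∀ᶠ X : ℕ in atTop, r + 2 * pB X ≤ pV D X := by
    have hD' : (0 : ℝ) < D := by
      have : 0 < D := by omega
      exact_mod_cast this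
    have h0 : 0 < Real.log D := Real.log_pos (by exact_mod_cast hD)
    have e1 : ∀ᶠ X : ℕ in atTop, 8 * D * Real.log D * (r + 4) ≤
        Real.sqrt (Real.sqrt (eL X)) :=
      (sqs_tendsto.comp eL_tendsto).eventually_ge_atTop _
    filter_upwards [e1, h2, h3] with X g1 g2 g3
    set u := Real.sqrt (Real.sqrt (eL X)) with hu
    have hu1 : 1 ≤ u := sq_one g2
    have hu4 : u ^ 4 = eL X := by
      rw [show u ^ 4 = (u ^ 2) ^ 2 by ring, Real.sq_sqrt (Real.sqrt_nonneg _),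
        Real.sq_sqrt (by linarith)]
    have hpB : (pB X : ℝ) ≤ u := Nat.floor_le (by linarith)
    have h5 := pJ_ge g2 hD g3
    have h6 : eL X / (4 * Real.log D) / D / 2 ≤ (pJ D X : ℝ) / D / 2 := by gcongr
    have h7 : eL X / (4 * Real.log D) / D / 2 = eL X / (8 * D * Real.log D) := by
      field_simp
      norm_num
    have h8 := Nat.sub_one_lt_floor ((pJ D X : ℝ) / D / 2)
    have h9 : (r + 4) * u ≤ eL X / (8 * D * Real.log D) := by
      rw [le_div_iff₀ (by positivity), ← hu4]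
      have e2 : u ^ 2 ≤ u ^ 4 := pow_le_pow_right₀ hu1 (by norm_num)
      calc (r + 4) * u * (8 * D * Real.log D) = (8 * D * Real.log D * (r + 4)) * u := by ring
        _ ≤ u * u := by gcongr
        _ = u ^ 2 := by ring
        _ ≤ _ := e2
    have h10 : (r : ℝ) + 2 * pB X ≤ pV D X := by
      have hr0 : (0 : ℝ) ≤ r := Nat.cast_nonneg _
      have e3 : (r : ℝ) + 2 * u + 1 ≤ (r + 4) * u := by nlinarith
      unfold pV
      linarith
    exact_mod_cast h10
  filter_upwards [h1, h2, h3, h4, h5, h7, eventually_ge_atTop 72] with X g1 g2 g3 g4 g5 g7 g6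
  have hpz : eL X ≤ pz X := by
    refine le_trans ?_ (pz_ge g2)
    have e2 := Real.add_one_le_exp (eL X ^ 3)
    have e3 : eL X ≤ eL X ^ 3 := le_self_pow₀ (by linarith) (by norm_num)
    linarith
  have hz0 : Z₀ ≤ pz X := by
    have e1 : (Z₀ : ℝ) ≤ pz X := by
      have e2 : (0 : ℝ) ≤ NS P := Nat.cast_nonneg _
      have e3 : (0 : ℝ) ≤ P.card := Nat.cast_nonneg _
      linarith
    exact_mod_cast e1
  have hPz : ∀ p ∈ P, nm p ≤ pz X := by
    intro p hp
    have e1 := NS_mono hPO (Finset.singleton_subset_iff.2 hp)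
    have e2 : NS {p} = nm p := by
      unfold NS
      rw [Finset.prod_singleton]
    rw [e2] at e1
    have e3 : (NS P : ℝ) ≤ pz X := by
      have e4 : (0 : ℝ) ≤ Z₀ := Nat.cast_nonneg _
      have e5 : (0 : ℝ) ≤ P.card := Nat.cast_nonneg _
      linarith
    have e4 : NS P ≤ pz X := by exact_mod_cast e3
    exact e1.trans e4
  have hPK : P.card ≤ pK X := by
    have e1 : (P.card : ℝ) ≤ pK X := by
      have e2 : (0 : ℝ) ≤ NS P := Nat.cast_nonneg _
      have e3 : (0 : ℝ) ≤ Z₀ := Nat.cast_nonneg _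
      have e4 := pK_ge g2
      linarith
    exact_mod_cast e1
  have hκ : C ≤ (C * Real.exp (-(eL X ^ 3 / 32))) ^ 32 * pz X := by
    have e1 : (C * Real.exp (-(eL X ^ 3 / 32))) ^ 32 = C ^ 32 * Real.exp (-(eL X ^ 3)) := by
      rw [mul_pow, ← Real.exp_nat_mul]
      congr 2
      push_cast
      ring
    rw [e1]
    have e2 : 1 ≤ Real.exp (-(eL X ^ 3)) * pz X := by
      rw [Real.exp_neg, ← div_eq_inv_mul, one_le_div (Real.exp_pos _)]
      exact pz_ge g2
    have e3 : C ≤ C ^ 32 := le_self_pow₀ hC (by norm_num)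
    calc C ≤ C ^ 32 * 1 := by linarith
      _ ≤ C ^ 32 * (Real.exp (-(eL X ^ 3)) * pz X) := by gcongr
      _ = _ := by ring
  have hm := masterQ hPO hR hC hbil (K := pK X) (pV D X) (X_pos g2) (pH_pos g2) (pz_pos g2) hPz hPK
    (κ := C * Real.exp (-(eL X ^ 3 / 32))) (by positivity) hκ (A₀ := r + 2 * pB X) (B₀ := pB X)
    (by omega) g7 hc₁ hc0 hc1 (pN_gt g2)
  have b1 := t1 g2
  have b2 := t2 g2
  have b3 := t3 g2
  have b4 := mul_le_mul_of_nonneg_left (t4 g2 hD g3) hc₀0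
  have b5 := t5 g2 hD g3 g4 (hmer _ hz0 _)
  have b6 := t6' g2 hC
  have b9 := t9 g2 hD g3 hc₀0 r
  have b10 := t10 g2
  have hX : (0 : ℝ) ≤ X := Nat.cast_nonneg _
  have b7 : (X : ℝ) * TP c₀ C D r (eL X) ≤ X * η := mul_le_mul_of_nonneg_left g1.le hX
  have b8 := SS_ge g6
  have b11 := disj_ge (P := P) X
  set n0 : ℝ := (((SS X).filter fun S => Disjoint S P).card : ℝ) with hn0
  have b12 : (X : ℝ) * η ≤ δ * n0 := by
    have e1 : (X : ℝ) / 65536000 ≤ 2 ^ P.card * n0 := b8.trans b11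
    have e2 : (X : ℝ) ≤ 65536000 * (2 ^ P.card * n0) := by
      rw [div_le_iff₀ (by norm_num)] at e1
      linarith
    rw [hη, mul_div_assoc', div_le_iff₀ (by positivity)]
    nlinarith
  have hL0 : 0 ≤ eL X := by linarith
  have hDr : (0 : ℝ) ≤ D := Nat.cast_nonneg _
  have hlD : 0 ≤ Real.log D := Real.log_natCast_nonneg _
  have hC0 : 0 ≤ C := by linarith
  -- comparison with the total error
  have b13 : 800 * Real.exp (-eL X) + 36 * Real.exp (-(eL X / 2)) + 44000 * Real.exp (-eL X) +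
      c₀ * (35840000 * (23 * eL X ^ 4) ^ 3 * (3 * Real.exp (-(eL X / (16 * D * Real.log D))))) +
      (160 * D * Real.log D / eL X + 14400 * (4 * D * Real.log D / eL X) ^ 2) ≤
      (1 + c₀) * TE C D (eL X) := by
    unfold TE
    have q1 : 0 ≤ 800 * Real.exp (-eL X) := by positivity
    have q2 : 0 ≤ 36 * Real.exp (-(eL X / 2)) := by positivity
    have q3 : 0 ≤ 44000 * Real.exp (-eL X) := by positivity
    have q4 : 0 ≤ 35840000 * (23 * eL X ^ 4) ^ 3 *
      (3 * Real.exp (-(eL X / (16 * D * Real.log D)))) := by positivity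
    have q5 : 0 ≤ 160 * D * Real.log D / eL X + 14400 * (4 * D * Real.log D / eL X) ^ 2 := by
      positivity
    have q6 : 0 ≤ 80 * C * Real.exp (474 * eL X ^ 2 - eL X ^ 3 / 32) := by positivity
    set a1 := 800 * Real.exp (-eL X)
    set a2 := 36 * Real.exp (-(eL X / 2))
    set a3 := 44000 * Real.exp (-eL X)
    set a4 := 35840000 * (23 * eL X ^ 4) ^ 3 *
      (3 * Real.exp (-(eL X / (16 * D * Real.log D))))
    set a5 := 160 * D * Real.log D / eL X + 14400 * (4 * D * Real.log D / eL X) ^ 2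
    set a6 := 80 * C * Real.exp (474 * eL X ^ 2 - eL X ^ 3 / 32)
    have q7 : 0 ≤ c₀ * (a1 + a2 + a3 + a5 + a6) := by positivity
    nlinarith
  have b14 := mul_le_mul_of_nonneg_left b13 hX
  unfold TP at b7
  rw [← hc₀] at hm
  set E1 := 400 * X * (1 + Real.log X) / 2 ^ pK X
  set E2 := 6 * X * Real.sqrt (pK X / pH X) + 12 * Real.sqrt X
  set E3 := 400 * X * (1 + Real.log X) * (15 / Real.sqrt (pH X) + 40 / Real.sqrt (pz X))
  set E4 := c₀ * (35840000 * X * (1 + Real.log ((pz X ^ pK X : ℕ) : ℝ)) ^ 3 / 2 ^ pV D X)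
  set E5 := (((SS X).filter fun S => (la (pz X) S).card < pV D X).card : ℝ)
  set E9 := c₀ * (448000 * X * (1 + Real.log ((pz X ^ pK X : ℕ) : ℝ)) *
        (2 * (1 + lp X)) ^ (r + 2 * pB X)) / 2 ^ pV D X
  set E10 := 16000 * X * (1 + Real.log ((pz X ^ pK X : ℕ) : ℝ)) ^ 2 / 2 ^ pB X
  have hfin : c₁ * n0 ≤ (((SS X).filter fun S => Ej κ₀ P S).card : ℝ) + δ * n0 := by
    refine hm.trans (add_le_add_right ?_ _)
    refine le_trans ?_ b12
    refine le_trans ?_ b7
    have c1 := add_le_add (add_le_add (add_le_add (add_le_add (add_le_add (add_le_add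
      (add_le_add b1 b2) b3) b4) b5) b9) b10) b6
    refine c1.trans ?_
    nlinarith
  have hc2 : c₁ - δ = bk M κ₀ 0.419 := by
    rw [hc₁, hδ]
    ring
  have : bk M κ₀ 0.419 * n0 = c₁ * n0 - δ * n0 := by rw [← hc2]; ring
  rw [this]
  linarith

end Pool.Agent.Helper35K9.LW
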