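import Mathlib

/-!
# Representations containing a quadratic character of `ℚ(i)`: definitions and two leaves

The definitions for the hand-in at MP_775b3b_nt, and the statements of the leaves REP and DIM. Mathlib only.
-/

set_option autoImplicit false

namespace Pool.Agent.Helper35K9.LW.Rep

open WeierstrassCurve TensorProduct

/-- `p` is primary: `p ≡ 1` modulo `2 + 2i`. -/
def Primary (p : GaussianInt) : Prop := (⟨2, 2⟩ : GaussianInt) ∣ p - 1

open Classical in
/-- The quadratic residue symbol `(D / p)` for a prime `p` of `ℤ[i]`: it is `0` if `p` divides `D`,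
`1` if `D` is a nonzero square modulo `p`, and `-1` if `D` is not a square modulo `p`. -/
noncomputable def symbol (p D : GaussianInt) : ℤ :=
  if p ∣ D then 0 else if ∃ b : GaussianInt, p ∣ b * b - D then 1 else -1

/-- The squarefree positive integers `d` all of whose prime factors `p` satisfy `p ≡ 3 mod 8`, and modulo
which all the primary prime factors of `δ` in `ℤ[i]` are squares. -/
def Fam (δ : GaussianInt) : Set ℕ := {d | Squarefree d ∧ ∀ p : ℕ, p.Prime → p ∣ d →
  p % 8 = 3 ∧ ∀ l : GaussianInt, Prime l → Primary l → l ∣ δ → symbol (p : GaussianInt) l = 1}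

/-- the curve `y² = x³ - d² x` over `ℚ` (isomorphic to `d y² = x³ - x`) -/
def E (d : ℕ) : WeierstrassCurve ℚ := ⟨0, 0, 0, -(d : ℚ) ^ 2, 0⟩

/-- the group `W(F)` -/
abbrev Pts (F : Type) [Field F] (W : WeierstrassCurve ℚ) [CharZero F] : Type :=
  (W.baseChange F).toAffine.Point

section

variable (F : Type) [Field F] [NumberField F] (W : WeierstrassCurve ℚ)

open Classical in
/-- the vector space `ℂ ⊗ W(F)` -/
def VE : Type := ℂ ⊗[ℤ] Pts F W

open Classical in
noncomputable instance : AddCommGroup (VE F W) := inferInstanceAs (AddCommGroup (ℂ ⊗[ℤ] Pts F W))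

open Classical in
noncomputable instance : Module ℂ (VE F W) := inferInstanceAs (Module ℂ (ℂ ⊗[ℤ] Pts F W))

open Classical in
/-- the representation of `Gal(F/ℚ)` on `ℂ ⊗ W(F)`: the action of `σ` -/
noncomputable def act (σ : F ≃ₐ[ℚ] F) : VE F W →ₗ[ℂ] VE F W :=
  LinearMap.baseChange ℂ (Affine.Point.map (W' := W.toAffine) (σ : F →ₐ[ℚ] F)).toIntLinearMap

variable {V : Type} [AddCommGroup V] [Module ℂ V] (ρ : (F ≃ₐ[ℚ] F) →* (V →ₗ[ℂ] V))

/-- homomorphism of representations -/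
def IsHom (f : V →ₗ[ℂ] VE F W) : Prop := ∀ σ v, f (ρ σ v) = act F W σ (f v)

lemma isHom_zero : IsHom F W ρ 0 := fun σ v => by simp

lemma isHom_add {f f' : V →ₗ[ℂ] VE F W} (h : IsHom F W ρ f) (h' : IsHom F W ρ f') :
    IsHom F W ρ (f + f') := fun σ v => by simp [h σ v, h' σ v]

lemma isHom_smul (c : ℂ) {f : V →ₗ[ℂ] VE F W} (h : IsHom F W ρ f) : IsHom F W ρ (c • f) :=
  fun σ v => by simp [h σ v]

/-- the space of the homomorphisms of representations from `ρ` to `ℂ ⊗ W(F)` -/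
def HomG : Submodule ℂ (V →ₗ[ℂ] VE F W) where
  carrier := {f | IsHom F W ρ f}
  zero_mem' := isHom_zero F W ρ
  add_mem' := isHom_add F W ρ
  smul_mem' := isHom_smul F W ρ

/-- the multiplicity `m_ρ` -/
noncomputable def mult : ℕ := Module.finrank ℂ (HomG F W ρ)

end

/-- irreducible: not zero, and there are no stable subspaces other than `0` and the whole space -/
def IsIrr {G V : Type} [Group G] [AddCommGroup V] [Module ℂ V] (ρ : G →* (V →ₗ[ℂ] V)) : Prop :=
  (∃ v : V, v ≠ 0) ∧ ∀ U : Submodule ℂ V, (∀ g, ∀ u ∈ U, ρ g u ∈ U) → U = ⊥ ∨ U = ⊤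

/-- `ρ` contains the quadratic character of `Gal(F/ℚ(i))` which belongs to `r = √δ`: there is `v ≠ 0` such
that every `σ` with `σ i = i` acts on `v` by the sign `σ r / r` (here `ℤ[i]` is embedded in `F` by `ι`). -/
def Contains {F : Type} [Field F] [NumberField F] (ι : GaussianInt →+* F) (r : F)
    {V : Type} [AddCommGroup V] [Module ℂ V] (ρ : (F ≃ₐ[ℚ] F) →* (V →ₗ[ℂ] V)) : Prop :=
  ∃ v : V, v ≠ 0 ∧ ∀ σ : F ≃ₐ[ℚ] F, σ (ι ⟨0, 1⟩) = ι ⟨0, 1⟩ →
    (σ r = r → ρ σ v = v) ∧ (σ r = -r → ρ σ v = -v)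

/-- The function `L(E_d, ρ, s)` for `D = d δ` and the representation `ρ` induced by the quadratic character
of `√δ` (Euler product over the primes `p ≡ 1 mod 2 + 2i` of `ℤ[i]`; the factor is `1` if `p` divides `D`) has
an entire continuation `L` with `L(1) ≠ 0`. -/
def NonvanishingAtOne (D : GaussianInt) : Prop := ∃ L : ℂ → ℂ, Differentiable ℂ L ∧
  (∀ s : ℂ, 3 / 2 < s.re → HasProd (fun p : {p : GaussianInt // Prime p ∧ Primary p} =>
    ((1 - (symbol p.1 D : ℂ) * (p.1 : ℂ) * ((p.1.norm : ℤ) : ℂ) ^ (-s)) *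
      (1 - (symbol p.1 D : ℂ) * (starRingEnd ℂ) (p.1 : ℂ) * ((p.1.norm : ℤ) : ℂ) ^ (-s)))⁻¹)
      (L s)) ∧ L 1 ≠ 0

/-- The rule for the curve `E_d` and the irreducible representations which contain the character of `√δ`:
they have dimension two and do not occur in `ℂ ⊗ E_d(F)`, for all `F`, and the `L`-function is entire
and not zero at `s = 1`. -/
def Rule (d : ℕ) (δ : GaussianInt) : Prop := NonvanishingAtOne ((d : GaussianInt) * δ) ∧
  ∀ (F : Type) [Field F] [NumberField F] [IsGalois ℚ F] (ι : GaussianInt →+* F) (r : F),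
    r ^ 2 = ι δ → ∀ (V : Type) [AddCommGroup V] [Module ℂ V] (ρ : (F ≃ₐ[ℚ] F) →* (V →ₗ[ℂ] V)),
      IsIrr ρ → Contains ι r ρ → Module.finrank ℂ V = 2 ∧ mult F (E d) ρ = 0

/-- `(d δ) y² = x³ - x` has no points over `ℚ(i)` but those with `y = 0` (and the one at infinity) -/
def OnlyTorsion (D : GaussianInt) : Prop :=
  ∀ x y : FractionRing GaussianInt,
    algebraMap GaussianInt (FractionRing GaussianInt) D * y ^ 2 = x ^ 3 - x → y = 0

/-- REP. If `(d δ) y² = x³ - x` has only the trivial points over `K = ℚ(i)`, then the representations of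
`Gal(F/ℚ)` containing `χ_δ` do not occur in `ℂ ⊗ E_d(F)`.

Proof. Let `H = {σ : σ i = i}` (the group `Gal(F/K)`) and `χ σ = σ r / r = ± 1` for `σ ∈ H` (`(σ r)² = σ (ι δ)
= ι δ = r²`). For `P ∈ E_d(F)` put `π P = ∑_(σ ∈ H) χ(σ) σ(P)`. Then `σ (π P) = χ(σ) π P` for `σ ∈ H`. If
`π P = (x, y)` this says `σ x = x` and `σ y = χ(σ) y`, so `x` and `y / r` are fixed by `H`, hence they are in
the image of `K` (`F/ℚ` is Galois: `IsGalois` for the intermediate field `K = ℚ(ι i)`,
`IntermediateField.fixedField_fixingSubgroup` or `IsGalois.mem_bot_iff_fixed`; `K ≅ FractionRing GaussianInt`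
through `ι`). With `x = d x'`, `y = d² r z`... we get `(d δ) z'² = x'³ - x'` over `K` with
`x' = x / d`, `z' = y / (r d²)`: `d δ z'² = y² / d³ = (x³ - d² x) / d³ = x'³ - x'`. So `z' = 0`, `y = 0` and
`2 π P = 0` (or `π P = 0`). So `2 π = 0` on `E_d(F)` and the operator `∑_(σ ∈ H) χ(σ) act σ` is zero
on `ℂ ⊗ E_d(F)` (linear extension; `2` is invertible). Now let `f ∈ HomG`, `v` the vector of `Contains`. Then
`act σ (f v) = f (ρ σ v) = χ(σ) f v` for `σ ∈ H`, so `|H| f v = ∑ χ(σ) act σ (f v) = 0`, `f v = 0`. The kernel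
of `f` is a stable subspace containing `v ≠ 0`, so it is everything (`IsIrr`), `f = 0`. So `HomG = ⊥` and
`mult = 0`. -/
def S_REP : Prop := ∀ (d : ℕ) (δ : GaussianInt), d ≠ 0 → δ ≠ 0 → OnlyTorsion ((d : GaussianInt) * δ) →
  ∀ (F : Type) [Field F] [NumberField F] [IsGalois ℚ F] (ι : GaussianInt →+* F) (r : F),
    r ^ 2 = ι δ → ∀ (V : Type) [AddCommGroup V] [Module ℂ V] (ρ : (F ≃ₐ[ℚ] F) →* (V →ₗ[ℂ] V)),
      IsIrr ρ → Contains ι r ρ → mult F (E d) ρ = 0

/-- DIM. If `δ conj δ` is not a square in `ℤ[i]`, then the irreducible representations containing `χ_δ` have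
dimension two.

Proof. `H = {σ : σ i = i}` has index two: there is `τ` with `τ i = -i` (`F/ℚ` is Galois, `i` and `-i` are
conjugate: `minpoly` of `ι i` over `ℚ` is `X² + 1`, `IsGalois`/`Normal` extends the conjugation), and
`σ, σ' ∉ H → σ σ' ∈ H`. The span `U` of `v` and `w = ρ τ v` is stable: for `h ∈ H`, `ρ h v = ± v`,
`ρ h w = ρ τ ρ (τ⁻¹ h τ) v = ± w` (`τ⁻¹ h τ ∈ H`), `ρ (τ h) v = ± w`, `ρ (τ h) w = ± ρ (τ²) v`-type `= ± v`. So
`U = ⊤` and the dimension is at most two. If it is one (not zero since `v ≠ 0`), then `w = c v`, and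
`ρ h w = c ρ h v`, so `χ (τ⁻¹ h τ) = χ h` for `h ∈ H`. Put `s = τ r`, `s² = τ (ι δ) = ι (conj δ)`. For `h ∈ H`:
`h s = τ (τ⁻¹ h τ) r = χ (τ⁻¹ h τ) s = χ h s`, so `h (r s) = r s`: `r s` is in the image of `K`, its square
is `ι (δ conj δ)`; as `ℤ[i]` is integrally closed `δ conj δ` is a square in `ℤ[i]`
(`IsIntegrallyClosed.isIntegral_iff` or `IsSquare` in the fraction field of a UFD), a contradiction. -/
def S_DIM : Prop := ∀ δ : GaussianInt, δ ≠ 0 → ¬ IsSquare (δ * star δ) →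
  ∀ (F : Type) [Field F] [NumberField F] [IsGalois ℚ F] (ι : GaussianInt →+* F) (r : F),
    r ^ 2 = ι δ → ∀ (V : Type) [AddCommGroup V] [Module ℂ V] (ρ : (F ≃ₐ[ℚ] F) →* (V →ₗ[ℂ] V)),
      IsIrr ρ → Contains ι r ρ → Module.finrank ℂ V = 2

end Pool.Agent.Helper35K9.LW.Rep
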