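import Pool.Agent.Helper35K9.LW.Df

/-!
# DIM: the irreducible representations containing the character of `√δ` have dimension two
-/

set_option autoImplicit false

namespace Pool.Agent.Helper35K9.LW.Rep

namespace DimL

variable {F : Type} [Field F] [NumberField F] (ι : GaussianInt →+* F)

/-- the image of `i` -/
noncomputable abbrev I : F := ι ⟨0, 1⟩

omit [NumberField F] in
lemma I_sq : I ι ^ 2 = -1 := by
  have h : (⟨0, 1⟩ : GaussianInt) ^ 2 = -1 := by decide
  have h2 := congrArg ι h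
  rwa [map_pow, map_neg, map_one] at h2

omit [NumberField F] in
lemma I_ne [CharZero F] : I ι ≠ 0 := by
  intro h
  have := I_sq ι
  rw [h] at this
  norm_num at this

lemma gi_eq (z : GaussianInt) : z = (z.re : GaussianInt) + (z.im : GaussianInt) * ⟨0, 1⟩ := by
  apply Zsqrtd.ext <;> simp

omit [NumberField F] in
lemma iota_eq (z : GaussianInt) : ι z = (z.re : F) + (z.im : F) * I ι := by
  conv_lhs => rw [gi_eq z]
  rw [map_add, map_mul, map_intCast, map_intCast]

lemma I_pm (σ : F ≃ₐ[ℚ] F) : σ (I ι) = I ι ∨ σ (I ι) = - I ι := by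
  have h : (σ (I ι)) ^ 2 = (I ι) ^ 2 := by
    rw [← map_pow, I_sq]; simp
  exact sq_eq_sq_iff_eq_or_eq_neg.mp h

lemma fix_iota {σ : F ≃ₐ[ℚ] F} (h : σ (I ι) = I ι) (z : GaussianInt) : σ (ι z) = ι z := by
  rw [iota_eq, map_add, map_mul, h]; simp

lemma star_iota {σ : F ≃ₐ[ℚ] F} (h : σ (I ι) = - I ι) (z : GaussianInt) : σ (ι z) = ι (star z) := by
  rw [iota_eq, iota_eq, map_add, map_mul, h]; simp

lemma exists_tau [IsGalois ℚ F] : ∃ τ : F ≃ₐ[ℚ] F, τ (I ι) = - I ι := by
  by_contra hno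
  push Not at hno
  have hall : ∀ σ : F ≃ₐ[ℚ] F, σ (I ι) = I ι := fun σ => (I_pm ι σ).resolve_right (hno σ)
  obtain ⟨q, hq⟩ := (IsGalois.mem_range_algebraMap_iff_fixed (F := ℚ) (E := F) (I ι)).mpr hall
  have h1 : (algebraMap ℚ F) (q ^ 2) = algebraMap ℚ F (-1) := by
    rw [map_pow, hq, I_sq]; simp
  have h2 : q ^ 2 = -1 := (algebraMap ℚ F).injective h1
  nlinarith [sq_nonneg q]

/-- every automorphism is in `H` or in `τ H` -/
lemma rational_of_fixed [IsGalois ℚ F] {τ : F ≃ₐ[ℚ] F} (hτ : τ (I ι) = - I ι) {x : F}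
    (hH : ∀ σ : F ≃ₐ[ℚ] F, σ (I ι) = I ι → σ x = x) (hx : τ x = x) : ∃ q : ℚ, x = (q : F) := by
  have hall : ∀ σ : F ≃ₐ[ℚ] F, σ x = x := by
    intro σ
    rcases I_pm ι σ with h | h
    · exact hH σ h
    · have h1 : (σ * τ⁻¹) (I ι) = I ι := by
        have : τ⁻¹ (I ι) = - I ι := by
          have h2 : τ (- I ι) = I ι := by rw [map_neg, hτ, neg_neg]
          have h3 : τ⁻¹ (τ (- I ι)) = τ⁻¹ (I ι) := by rw [h2]
          symm
          rw [← AlgEquiv.mul_apply, inv_mul_cancel, AlgEquiv.one_apply] at h3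
          exact h3
        rw [AlgEquiv.mul_apply, this, map_neg, h, neg_neg]
      have h2 := hH _ h1
      rw [AlgEquiv.mul_apply] at h2
      have h3 : τ⁻¹ x = x := by
        conv_lhs => rw [← hx]
        rw [← AlgEquiv.mul_apply, inv_mul_cancel, AlgEquiv.one_apply]
      rwa [h3] at h2
  obtain ⟨q, hq⟩ := (IsGalois.mem_range_algebraMap_iff_fixed (F := ℚ) (E := F) x).mpr hall
  exact ⟨q, by rw [← hq]; simp⟩

section rep

variable {V : Type} [AddCommGroup V] [Module ℂ V] (ρ : (F ≃ₐ[ℚ] F) →* (V →ₗ[ℂ] V))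

/-- `τ⁻¹ σ τ` is in `H` -/
lemma conj_H {τ σ : F ≃ₐ[ℚ] F} (hτ : τ (I ι) = - I ι) (hσ : σ (I ι) = I ι) :
    (τ⁻¹ * σ * τ) (I ι) = I ι := by
  have h2 : τ⁻¹ (- I ι) = I ι := by
    rw [← hτ, ← AlgEquiv.mul_apply, inv_mul_cancel, AlgEquiv.one_apply]
  rw [AlgEquiv.mul_apply, AlgEquiv.mul_apply, hτ, map_neg σ, hσ, h2]

/-- `τ⁻¹ σ` is in `H` -/
lemma inv_mul_H {τ σ : F ≃ₐ[ℚ] F} (hτ : τ (I ι) = - I ι) (hσ : σ (I ι) = - I ι) :
    (τ⁻¹ * σ) (I ι) = I ι := by
  have h2 : τ⁻¹ (- I ι) = I ι := by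
    rw [← hτ, ← AlgEquiv.mul_apply, inv_mul_cancel, AlgEquiv.one_apply]
  rw [AlgEquiv.mul_apply, hσ, h2]

lemma mul_H {τ σ : F ≃ₐ[ℚ] F} (hτ : τ (I ι) = - I ι) (hσ : σ (I ι) = - I ι) :
    (σ * τ) (I ι) = I ι := by
  rw [AlgEquiv.mul_apply, hτ, map_neg, hσ, neg_neg]

lemma r_pm {δ : GaussianInt} {r : F} (hr : r ^ 2 = ι δ) {σ : F ≃ₐ[ℚ] F} (hσ : σ (I ι) = I ι) :
    σ r = r ∨ σ r = - r := by
  have h : (σ r) ^ 2 = r ^ 2 := by
    rw [← map_pow, hr, fix_iota ι hσ]
  exact sq_eq_sq_iff_eq_or_eq_neg.mp h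

lemma v_pm {δ : GaussianInt} {r : F} (hr : r ^ 2 = ι δ) {v : V}
    (hv : ∀ σ : F ≃ₐ[ℚ] F, σ (I ι) = I ι → (σ r = r → ρ σ v = v) ∧ (σ r = -r → ρ σ v = -v))
    {σ : F ≃ₐ[ℚ] F} (hσ : σ (I ι) = I ι) : ρ σ v = v ∨ ρ σ v = - v := by
  rcases r_pm ι hr hσ with h | h
  · exact Or.inl ((hv σ hσ).1 h)
  · exact Or.inr ((hv σ hσ).2 h)

end rep

end DimL

open DimL in
theorem dim : S_DIM := by
  intro δ hδ hsq F _ _ _ ι r hr V _ _ ρ hirr hcon
  obtain ⟨v, hv0, hv⟩ := hcon
  obtain ⟨τ, hτ⟩ := exists_tau ι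
  have hv' : ∀ σ : F ≃ₐ[ℚ] F, σ (I ι) = I ι → (σ r = r → ρ σ v = v) ∧ (σ r = -r → ρ σ v = -v) := hv
  set w : V := ρ τ v with hw
  have hmul : ∀ (a b : F ≃ₐ[ℚ] F) (u : V), ρ (a * b) u = ρ a (ρ b u) := by
    intro a b u
    rw [map_mul]; rfl
  have hconj : ∀ (σ : F ≃ₐ[ℚ] F), ρ σ w = ρ τ (ρ (τ⁻¹ * σ * τ) v) := by
    intro σ
    rw [hw, ← hmul, ← hmul]
    congr 2
    group
  have hinv : ∀ (σ : F ≃ₐ[ℚ] F), ρ σ v = ρ τ (ρ (τ⁻¹ * σ) v) := by
    intro σ
    rw [← hmul]
    congr 2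
    group
  have hwne : w ≠ 0 := by
    intro h
    apply hv0
    have : ρ (τ⁻¹ * τ) v = ρ τ⁻¹ w := hmul _ _ _
    rw [inv_mul_cancel, h, map_zero, map_one] at this
    exact this
  -- the span is stable
  have hstab : ∀ g, ∀ u ∈ Submodule.span ℂ (Set.range ![v, w]),
      ρ g u ∈ Submodule.span ℂ (Set.range ![v, w]) := by
    intro g
    have hvm : v ∈ Submodule.span ℂ (Set.range ![v, w]) := Submodule.subset_span ⟨0, rfl⟩
    have hwm : w ∈ Submodule.span ℂ (Set.range ![v, w]) := Submodule.subset_span ⟨1, rfl⟩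
    have key : ρ g v ∈ Submodule.span ℂ (Set.range ![v, w]) ∧
        ρ g w ∈ Submodule.span ℂ (Set.range ![v, w]) := by
      rcases I_pm ι g with h | h
      · constructor
        · rcases v_pm ι ρ hr hv' h with h1 | h1
          · rw [h1]; exact hvm
          · rw [h1]; exact Submodule.neg_mem _ hvm
        · rw [hconj]
          rcases v_pm ι ρ hr hv' (conj_H ι hτ h) with h1 | h1
          · rw [h1]; exact hwm
          · rw [h1, map_neg]; exact Submodule.neg_mem _ hwm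
      · constructor
        · rw [hinv]
          rcases v_pm ι ρ hr hv' (inv_mul_H ι hτ h) with h1 | h1
          · rw [h1]; exact hwm
          · rw [h1, map_neg]; exact Submodule.neg_mem _ hwm
        · rw [hw, ← hmul]
          rcases v_pm ι ρ hr hv' (mul_H ι hτ h) with h1 | h1
          · rw [h1]; exact hvm
          · rw [h1]; exact Submodule.neg_mem _ hvm
    intro u hu
    induction hu using Submodule.span_induction with
    | mem x hx =>
      obtain ⟨j, rfl⟩ := hx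
      fin_cases j
      · exact key.1
      · exact key.2
    | zero => rw [map_zero]; exact Submodule.zero_mem _
    | add x y _ _ hx hy => rw [map_add]; exact Submodule.add_mem _ hx hy
    | smul a x _ hx => rw [map_smul]; exact Submodule.smul_mem _ _ hx
  have htop : Submodule.span ℂ (Set.range ![v, w]) = ⊤ := by
    rcases hirr.2 _ hstab with h | h
    · exfalso
      apply hv0
      have hvm : v ∈ Submodule.span ℂ (Set.range ![v, w]) := Submodule.subset_span ⟨0, rfl⟩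
      rw [h] at hvm
      exact (Submodule.mem_bot ℂ).mp hvm
    · exact h
  -- linear independence
  have hli : LinearIndependent ℂ ![v, w] := by
    rw [LinearIndependent.pair_iff]
    intro a b hab
    by_cases hb : b = 0
    · subst hb
      rw [zero_smul, add_zero] at hab
      exact ⟨(smul_eq_zero.mp hab).resolve_right hv0, rfl⟩
    exfalso
    have hwc : w = (-(b⁻¹ * a)) • v := by
      have h1 : b • w = -(a • v) := by
        rw [eq_neg_iff_add_eq_zero, add_comm]; exact hab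
      have h2 : b⁻¹ • (b • w) = b⁻¹ • (-(a • v)) := by rw [h1]
      rw [smul_smul, inv_mul_cancel₀ hb, one_smul] at h2
      rw [h2, smul_neg, smul_smul, neg_smul]
    set c : ℂ := -(b⁻¹ * a) with hc
    have hself : ∀ u : V, u = -u → u = 0 := by
      intro u hu
      have h1 : (2 : ℂ) • u = 0 := by
        rw [two_smul]
        nth_rewrite 2 [hu]
        simp
      exact (smul_eq_zero.mp h1).resolve_left two_ne_zero
    -- the two characters agree
    have hfix : ∀ σ : F ≃ₐ[ℚ] F, σ (I ι) = I ι → σ (r * τ r) = r * τ r := by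
      intro σ hσ
      have hστ : σ (τ r) = τ ((τ⁻¹ * σ * τ) r) := by
        rw [← AlgEquiv.mul_apply, ← AlgEquiv.mul_apply]
        congr 1
        group
      rw [map_mul, hστ]
      rcases r_pm ι hr hσ with h | h <;> rcases r_pm ι hr (conj_H ι hτ hσ) with h' | h'
      · rw [h, h']
      · exfalso
        have h1 : ρ σ w = w := by
          rw [hwc, map_smul, (hv' σ hσ).1 h]
        have h2 : ρ σ w = -w := by
          rw [hconj, (hv' _ (conj_H ι hτ hσ)).2 h', map_neg]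
        exact hwne (hself w (h1.symm.trans h2))
      · exfalso
        have h1 : ρ σ w = -w := by
          rw [hwc, map_smul, (hv' σ hσ).2 h, smul_neg]
        have h2 : ρ σ w = w := by
          rw [hconj, (hv' _ (conj_H ι hτ hσ)).1 h']
        exact hwne (hself w (h2.symm.trans h1))
      · rw [h, h', map_neg]; ring
    set t : F := r * τ r with ht
    have ht2 : t ^ 2 = ι (δ * star δ) := by
      rw [ht, mul_pow, ← map_pow, hr, star_iota ι hτ, map_mul]
    have hN : δ * star δ = ((δ.norm : ℤ) : GaussianInt) := by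
      rw [Zsqrtd.norm_eq_mul_conj]
    have hNpos : 0 < δ.norm := by
      rw [GaussianInt.norm_pos]; exact hδ
    have ht2' : t ^ 2 = (δ.norm : F) := by
      rw [ht2, hN, map_intCast]
    -- t is rational, or I t is
    have hcases : τ t = t ∨ τ t = - t := by
      have h : (τ t) ^ 2 = t ^ 2 := by
        rw [← map_pow, ht2', map_intCast]
      exact sq_eq_sq_iff_eq_or_eq_neg.mp h
    rcases hcases with h | h
    · obtain ⟨q, hq⟩ := rational_of_fixed ι hτ hfix h
      have hqq : ((q ^ 2 : ℚ) : F) = ((δ.norm : ℚ) : F) := by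
        push_cast
        rw [← hq, ht2']
      have hq2 : q ^ 2 = (δ.norm : ℚ) := by exact_mod_cast hqq
      have hsqQ : IsSquare ((δ.norm : ℤ) : ℚ) := ⟨q, by rw [← hq2, sq]⟩
      rw [Rat.isSquare_intCast_iff] at hsqQ
      obtain ⟨m, hm⟩ := hsqQ
      apply hsq
      refine ⟨(m : GaussianInt), ?_⟩
      rw [hN, hm]; push_cast; rfl
    · have h1 : τ (t * I ι) = t * I ι := by
        rw [map_mul, h, hτ]; ring
      have h2 : ∀ σ : F ≃ₐ[ℚ] F, σ (I ι) = I ι → σ (t * I ι) = t * I ι := by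
        intro σ hσ
        rw [map_mul, hfix σ hσ, hσ]
      obtain ⟨q, hq⟩ := rational_of_fixed ι hτ h2 h1
      have hqq : ((q ^ 2 : ℚ) : F) = ((-(δ.norm : ℚ) : ℚ) : F) := by
        push_cast
        rw [← hq, mul_pow, ht2', I_sq]; ring
      have hq2 : q ^ 2 = -(δ.norm : ℚ) := by exact_mod_cast hqq
      have : (0 : ℚ) < (δ.norm : ℚ) := by exact_mod_cast hNpos
      nlinarith [sq_nonneg q]
  have h := finrank_span_eq_card hli
  rw [htop, finrank_top] at h
  simpa using h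

end Pool.Agent.Helper35K9.LW.Rep
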