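import Pool.Agent.Helper35K9.TW.Towp
import Pool.Agent.Helper35K9.LW.Asyq

/-! Infinite towers of new primes above all the nondegenerate unions. -/

set_option autoImplicit false

namespace Pool.Agent.Helper35K9.LW

open Pool.Agent.Y697.PQ

open Finset
open Pool.Agent.Y697.MQ (leg OP Pr Pr_prod gA Gd fr gw recip gA_zero)
open Pool.Agent.Helper35K9.TW
open Pool.Agent.Y697.PP (Mt)
open Pool.Agent.Helper35K9.TW.PP (gd_of_det)

/-- **New primes.** -/
theorem exists_towerQ {P Q : Finset GaussianInt} (hP : ∀ x ∈ P, OP x) (hQ : ∀ x ∈ Q, OP x) :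
    ∃ R : Set GaussianInt, R.Infinite ∧ (∀ q ∈ R, OP q) ∧ (∀ x ∈ Q, x ∉ R) ∧ (∀ p ∈ P, p ∉ R) ∧
      ∀ T ⊆ P, Gd gA gL (Q ∪ T) → ∀ U : Finset GaussianInt, (∀ l ∈ U, l ∈ R) →
        Disjoint (Q ∪ T) U ∧ Gd gA gL ((Q ∪ T) ∪ U) := by
  classical
  have hsym : Std.Symm (fun x y : GaussianInt => x ≠ y ∧ OP x ∧ OP y ∧ leg x y = 1 ∧ leg y x = 1) :=
    ⟨fun x y h => ⟨h.1.symm, h.2.2.1, h.2.1, h.2.2.2.2, h.2.2.2.1⟩⟩
  have hPQO : ∀ x ∈ Q ∪ P, OP x := by
    intro x hx
    rcases Finset.mem_union.1 hx with h | h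
    · exact hQ x h
    · exact hP x h
  obtain ⟨f, f1, f2⟩ := exists_seq_of_forall_finset_exists'
    (fun y : GaussianInt => OP y ∧ cl y = -1 ∧ y ∉ Q ∪ P ∧ ∀ u ∈ Q ∪ P, leg y u = 1)
    (fun x y => x ≠ y ∧ OP x ∧ OP y ∧ leg x y = 1 ∧ leg y x = 1) (by
      intro s hs
      obtain ⟨y, b1, b2, b3, b4, b5⟩ := exists_isoL ((Q ∪ P) ∪ s) (by
        intro x hx
        rcases Finset.mem_union.1 hx with h | h
        · exact hPQO x h
        · exact (hs x h).1) ∅
      refine ⟨y, ⟨b1, b2, fun h => b3 (Finset.mem_union_left _ h),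
        fun u hu => b5 u (Finset.mem_union_left _ hu)⟩, fun x hx => ?_⟩
      have hne : x ≠ y := fun h => b3 (Finset.mem_union_right _ (h ▸ hx))
      have h3 := b5 x (Finset.mem_union_right _ hx)
      exact ⟨hne, (hs x hx).1, b1, by rw [recip (hs x hx).1 b1 hne]; exact h3, h3⟩)
  -- the sets with new primes
  have key : ∀ U₀ ⊆ P, Gd gA gL (Q ∪ U₀) → ∀ U : Finset GaussianInt, (∀ l ∈ U, l ∈ Set.range f) →
      Gd gA gL ((Q ∪ U₀) ∪ U) := by
    intro U₀ hU₀ hG U
    have hsub : ∀ x ∈ Q ∪ U₀, x ∈ Q ∪ P := fun x hx => by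
      rcases Finset.mem_union.1 hx with h | h
      · exact Finset.mem_union_left _ h
      · exact Finset.mem_union_right _ (hU₀ h)
    induction U using Finset.induction_on with
    | empty =>
      intro _
      rw [Finset.union_empty]
      exact hG
    | insert q U hq ih =>
      intro hU
      have h2 := ih fun l hl => hU l (Finset.mem_insert_of_mem hl)
      obtain ⟨n, hn⟩ := hU q (Finset.mem_insert_self _ _)
      have hqQ : q ∉ Q ∪ U₀ := by
        rw [← hn]
        exact fun h => (f1 n).2.2.1 (hsub _ h)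
      have key : ∀ u ∈ (Q ∪ U₀) ∪ U, gA q u = 0 ∧ gA u q = 0 := by
        intro u hu
        rcases Finset.mem_union.1 hu with hu | hu
        · rw [← hn]
          exact gA_zero (f1 n).1 (hPQO u (hsub u hu)) (fun h => (f1 n).2.2.1 (h ▸ hsub u hu))
            ((f1 n).2.2.2 u (hsub u hu))
        · obtain ⟨m, hm⟩ := hU u (Finset.mem_insert_of_mem hu)
          have hne : q ≠ u := fun h => hq (h ▸ hu)
          have hnm : n ≠ m := fun h => hne (by rw [← hn, ← hm, h])
          rw [← hn, ← hm]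
          exact gA_zero (f1 n).1 (f1 m).1 (f2 hnm).1 (f2 hnm).2.2.2.1
      rw [Finset.union_insert]
      refine h2.iso ?_ (gL_one (hn ▸ (f1 n).2.1)) (fun u hu => (key u hu).1)
        fun u hu => (key u hu).2
      rw [Finset.mem_union, not_or]
      exact ⟨hqQ, hq⟩
  refine ⟨Set.range f, ?_, ?_, ?_, ?_, ?_⟩
  · apply Set.infinite_range_of_injective
    intro m n hmn
    by_contra hne
    exact (f2 hne).1 hmn
  · rintro x ⟨n, rfl⟩
    exact (f1 n).1
  · rintro x hx ⟨n, rfl⟩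
    exact (f1 n).2.2.1 (Finset.mem_union_left _ hx)
  · rintro x hx ⟨n, rfl⟩
    exact (f1 n).2.2.1 (Finset.mem_union_right _ hx)
  · intro T hT hG U hU
    refine ⟨?_, key T hT hG U hU⟩
    rw [Finset.disjoint_left]
    intro x hx hxU
    obtain ⟨n, rfl⟩ := hU x hxU
    apply (f1 n).2.2.1
    rcases Finset.mem_union.1 hx with h | h
    · exact Finset.mem_union_left _ h
    · exact Finset.mem_union_right _ (hT h)

end Pool.Agent.Helper35K9.LW
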