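import Pool.Agent.Helper35K9.LW.Df
import Pool.Agent.Helper35K9.LW.Towq
import Pool.Agent.Helper35K9.TW.Brg

/-! The explicit families of integers above a nondegenerate set. -/

set_option autoImplicit false

namespace Pool.Agent.Helper35K9.LW.Rep

open Finset
open Pool.Agent.Y697.MQ (leg leg_ne leg_congr leg_eq_zero leg_mul leg_sq_eq OP Pr Pr_iff Pr_prod gA Gd recip gA_zero)
open Pool.Agent.Helper35K9.TW

/-- a rational prime `p ≡ 3 mod 8` with the sign minus -/
theorem inert_OP {p : ℕ} (hp : p.Prime) (h8 : p % 8 = 3) :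
    OP (-(p : GaussianInt)) ∧ cl (-(p : GaussianInt)) = -1 := by
  have : Fact p.Prime := ⟨hp⟩
  have h1 : Prime (p : GaussianInt) :=
    GaussianInt.prime_of_nat_prime_of_mod_four_eq_three p (by omega)
  have hre : (-(p : GaussianInt)).re = -(p : ℤ) := by simp
  have him : (-(p : GaussianInt)).im = 0 := by simp
  refine ⟨⟨h1.neg, ?_⟩, ?_⟩
  · rw [Pr_iff2, hre, him]
    omega
  · apply cl_neg
    · rw [him]; rfl
    · rw [hre, him]; omega

theorem leg_neg_left (p a : GaussianInt) : leg (-p) a = leg p a := by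
  classical
  have h1 : -p ∣ a ↔ p ∣ a := neg_dvd
  have h2 : (∃ b : GaussianInt, -p ∣ b ^ 2 - a) ↔ (∃ b : GaussianInt, p ∣ b ^ 2 - a) :=
    exists_congr fun b => neg_dvd
  unfold leg
  exact if_congr h1 rfl (if_congr h2 rfl rfl)

theorem leg_i {q a e : GaussianInt} (hq : Prime q) (he : ¬ q ∣ e) : leg q (a * e ^ 2) = leg q a := by
  rw [leg_mul hq, pow_two, leg_mul hq, leg_sq_eq he, mul_one]

/-- the integers are squares modulo the inert primes -/
theorem inert_leg {p : ℕ} (hp : p.Prime) (h4 : p % 4 = 3) (n : ℤ) (hn : ¬ (p : ℤ) ∣ n) :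
    leg (p : GaussianInt) (n : GaussianInt) = 1 := by
  have : Fact p.Prime := ⟨hp⟩
  have hP : Prime (p : GaussianInt) := GaussianInt.prime_of_nat_prime_of_mod_four_eq_three p h4
  have hnz : (n : ZMod p) ≠ 0 := fun h => hn ((ZMod.intCast_zmod_eq_zero_iff_dvd n p).1 h)
  have key : ∀ m : ℤ, IsSquare (m : ZMod p) → ∃ b : ℤ, (p : ℤ) ∣ b ^ 2 - m := by
    rintro m ⟨c, hc⟩
    refine ⟨(c.val : ℤ), ?_⟩
    rw [← ZMod.intCast_zmod_eq_zero_iff_dvd]
    push_cast
    rw [ZMod.natCast_zmod_val, hc]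
    ring
  have hcast : ∀ b m : ℤ, (p : ℤ) ∣ b ^ 2 - m → (p : GaussianInt) ∣ (b : GaussianInt) ^ 2 - (m : GaussianInt) := by
    rintro b m ⟨k, hk⟩
    refine ⟨(k : GaussianInt), ?_⟩
    have : (((b ^ 2 - m : ℤ)) : GaussianInt) = (((p : ℤ) * k : ℤ) : GaussianInt) := by rw [hk]
    push_cast at this
    exact this
  have hndvd : ¬ (p : GaussianInt) ∣ (n : GaussianInt) := by
    intro h
    apply hn
    have h2 := (Zsqrtd.intCast_dvd (p : ℤ) (n : GaussianInt)).1 (by exact_mod_cast h)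
    simpa using h2.1
  have hex : ∃ b : GaussianInt, (p : GaussianInt) ∣ b ^ 2 - (n : GaussianInt) := by
    by_cases h : IsSquare (n : ZMod p)
    · obtain ⟨b, hb⟩ := key n h
      exact ⟨b, hcast b n hb⟩
    · have h2 : IsSquare ((-n : ℤ) : ZMod p) := by
        have e1 : quadraticChar (ZMod p) (n : ZMod p) = -1 := by
          rwa [quadraticChar_neg_one_iff_not_isSquare]
        have e2 : quadraticChar (ZMod p) (-1 : ZMod p) = -1 := by
          rw [quadraticChar_neg_one_iff_not_isSquare]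
          intro h3
          have := (ZMod.exists_sq_eq_neg_one_iff (p := p)).1 h3
          exact this h4
        have e3 : quadraticChar (ZMod p) ((-n : ℤ) : ZMod p) = 1 := by
          push_cast
          rw [neg_eq_neg_one_mul, map_mul, e1, e2]
          norm_num
        exact (quadraticChar_one_iff_isSquare (by push_cast; exact neg_ne_zero.2 hnz)).1 e3
      obtain ⟨b, hb⟩ := key (-n) h2
      refine ⟨⟨0, 1⟩ * (b : GaussianInt), ?_⟩
      have h3 := hcast b (-n) hb
      have h4 : (⟨0, 1⟩ * (b : GaussianInt)) ^ 2 - (n : GaussianInt) =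
          -((b : GaussianInt) ^ 2 - ((-n : ℤ) : GaussianInt)) := by
        have e : (⟨0, 1⟩ : GaussianInt) ^ 2 = -1 := by decide
        rw [mul_pow, e]
        push_cast
        ring
      rw [h4]
      exact (dvd_neg).2 h3
  unfold leg
  rw [if_neg hndvd, if_pos hex]

/-- **The isolated primes.** -/
theorem gd_union {Q : Finset GaussianInt} (hQ : ∀ x ∈ Q, OP x) (hG : Gd gA gL Q) (s : Finset ℕ)
    (hs : ∀ p ∈ s, p.Prime ∧ p % 8 = 3 ∧ ∀ l ∈ Q, leg (p : GaussianInt) l = 1) :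
    Disjoint Q (s.image fun p : ℕ => -(p : GaussianInt)) ∧
      Gd gA gL (Q ∪ s.image fun p : ℕ => -(p : GaussianInt)) := by
  classical
  induction s using Finset.induction_on with
  | empty => simpa using hG
  | insert p s hp ih =>
    obtain ⟨h1, h2⟩ := ih fun q hq => hs q (Finset.mem_insert_of_mem hq)
    obtain ⟨hpp, hp8, hpQ⟩ := hs p (Finset.mem_insert_self _ _)
    obtain ⟨hOP, hcl⟩ := inert_OP hpp hp8
    have hpQ' : -(p : GaussianInt) ∉ Q := by
      intro h
      have h3 := hpQ _ h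
      rw [(leg_eq_zero).2 ((dvd_neg).2 (dvd_refl _))] at h3
      exact absurd h3 (by norm_num)
    have hps : -(p : GaussianInt) ∉ s.image fun q : ℕ => -(q : GaussianInt) := by
      intro h
      obtain ⟨q, hq, hqp⟩ := Finset.mem_image.1 h
      have h3 : q = p := by exact_mod_cast neg_injective hqp
      exact hp (h3 ▸ hq)
    have key : ∀ u ∈ Q ∪ s.image (fun q : ℕ => -(q : GaussianInt)),
        gA (-(p : GaussianInt)) u = 0 ∧ gA u (-(p : GaussianInt)) = 0 := by
      intro u hu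
      rcases Finset.mem_union.1 hu with hu | hu
      · exact gA_zero hOP (hQ u hu) (fun h => hpQ' (h ▸ hu)) (by rw [leg_neg_left]; exact hpQ u hu)
      · obtain ⟨q, hq, rfl⟩ := Finset.mem_image.1 hu
        obtain ⟨hqq, hq8, -⟩ := hs q (Finset.mem_insert_of_mem hq)
        have hne : p ≠ q := fun h => hp (h ▸ hq)
        refine gA_zero hOP (inert_OP hqq hq8).1 (fun h => hne (by exact_mod_cast neg_injective h)) ?_
        rw [leg_neg_left]
        have h3 := inert_leg hpp (by omega) (-(q : ℤ)) (by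
          rw [dvd_neg]
          intro h
          have h4 : p ∣ q := by exact_mod_cast h
          exact hne ((Nat.prime_dvd_prime_iff_eq hpp hqq).1 h4))
        push_cast at h3
        exact h3
    rw [Finset.image_insert]
    refine ⟨?_, ?_⟩
    · rw [Finset.disjoint_insert_right]
      exact ⟨hpQ', h1⟩
    · rw [Finset.union_insert]
      refine h2.iso ?_ (gL_one hcl) (fun u hu => (key u hu).1) fun u hu => (key u hu).2
      rw [Finset.mem_union, not_or]
      exact ⟨hpQ', hps⟩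

theorem symbol_eq (p D : GaussianInt) : symbol p D = leg p D := (leg_eq_qs p D).symm

theorem op_iff (p : GaussianInt) : OP p ↔ Prime p ∧ Primary p :=
  ⟨fun h => ⟨h.pr, (Pr_iff p).1 h.pm⟩, fun h => ⟨h.1, (Pr_iff p).2 h.2⟩⟩

/-- `1 + i` times a product of primary primes -/
theorem dvd_prod {Q : Finset GaussianInt} (hQ : ∀ x ∈ Q, OP x) {l : GaussianInt} (hl : l ∈ Q) :
    l ∣ (⟨1, 1⟩ : GaussianInt) * ∏ x ∈ Q, x := (Finset.dvd_prod_of_mem _ hl).mul_left _

theorem cast_prod (d : ℕ) (hd : Squarefree d) :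
    (d : GaussianInt) = ∏ p ∈ d.primeFactors, (p : GaussianInt) := by
  conv_lhs => rw [← Nat.prod_primeFactors_of_squarefree hd]
  push_cast
  rfl

/-- **The family.** -/
theorem fam {Q : Finset GaussianInt} (hQ : ∀ x ∈ Q, OP x) (hG : Gd gA gL Q) {d : ℕ}
    (hd : d ∈ Fam ((⟨1, 1⟩ : GaussianInt) * ∏ x ∈ Q, x)) :
    ∃ D' e : GaussianInt, (d : GaussianInt) * ((⟨1, 1⟩ : GaussianInt) * ∏ x ∈ Q, x) = D' * e ^ 2 ∧
      IsUnit e ∧ Pool.Agent.Y690.PP.Fn.GoodP D' ∧ Pool.Agent.Y690.PP.Fn.GoodL D' := by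
  classical
  obtain ⟨hsq, hp⟩ := hd
  have hd0 : d ≠ 0 := hsq.ne_zero
  obtain ⟨h1, h2⟩ := gd_union hQ hG d.primeFactors (fun p hpd => by
    have h3 := Nat.prime_of_mem_primeFactors hpd
    obtain ⟨h4, h5⟩ := hp p h3 (Nat.dvd_of_mem_primeFactors hpd)
    refine ⟨h3, h4, fun l hl => ?_⟩
    have h6 := (op_iff l).1 (hQ l hl)
    rw [← symbol_eq]
    exact h5 l h6.1 h6.2 (dvd_prod hQ hl))
  set U := d.primeFactors.image fun p : ℕ => -(p : GaussianInt) with hU
  have hO : ∀ x ∈ Q ∪ U, OP x := by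
    intro x hx
    rcases Finset.mem_union.1 hx with hx | hx
    · exact hQ x hx
    · obtain ⟨p, hpd, rfl⟩ := Finset.mem_image.1 hx
      have h3 := Nat.prime_of_mem_primeFactors hpd
      exact (inert_OP h3 (hp p h3 (Nat.dvd_of_mem_primeFactors hpd)).1).1
  have h3 := good_of_gd hO h2
  have h4 : ∏ x ∈ U, x = (⟨0, 1⟩ ^ d.primeFactors.card) ^ 2 * (d : GaussianInt) := by
    rw [hU, Finset.prod_image (fun p _ q _ h => by exact_mod_cast neg_injective h),
      cast_prod d hsq, ← pow_mul, mul_comm _ 2, pow_mul]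
    have e : (⟨0, 1⟩ : GaussianInt) ^ 2 = -1 := by decide
    rw [e, ← Finset.prod_const, ← Finset.prod_mul_distrib]
    exact Finset.prod_congr rfl fun p _ => by ring
  have hu : ((⟨0, 1⟩ : GaussianInt) ^ d.primeFactors.card) *
      (⟨0, -1⟩ : GaussianInt) ^ d.primeFactors.card = 1 := by
    rw [← mul_pow]
    have e : (⟨0, 1⟩ : GaussianInt) * ⟨0, -1⟩ = 1 := by decide
    rw [e, one_pow]
  refine ⟨_, (⟨0, -1⟩ : GaussianInt) ^ d.primeFactors.card, ?_, IsUnit.of_mul_eq_one _ (by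
    rw [mul_comm]; exact hu), h3⟩
  rw [Finset.prod_union h1, h4]
  unfold Pool.Agent.Y690.PP.Fn.la
  linear_combination (-(d : GaussianInt) * (⟨1, 1⟩ * ∏ x ∈ Q, x) *
    ((⟨0, 1⟩ : GaussianInt) ^ d.primeFactors.card * (⟨0, -1⟩ : GaussianInt) ^ d.primeFactors.card + 1)) * hu

/-- there are infinitely many primes in the family -/
theorem fam_inf {Q : Finset GaussianInt} (hQ : ∀ x ∈ Q, OP x) :
    {p : ℕ | p.Prime ∧ p ∈ Fam ((⟨1, 1⟩ : GaussianInt) * ∏ x ∈ Q, x)}.Infinite := by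
  classical
  set m : ℕ := ∏ x ∈ Q, x.norm.natAbs with hm
  have hodd : ∀ x ∈ Q, Odd x.norm.natAbs := by
    intro x hx
    have h1 := (Pr_iff2 x).1 (hQ x hx).pm
    have h2 : x.norm = x.re * x.re + x.im * x.im := by rw [Zsqrtd.norm_def]; ring
    rw [Int.natAbs_odd, h2]
    have h3 : Odd x.re := by
      rw [Int.odd_iff]
      omega
    have h4 : Even x.im := Int.even_iff.2 h1.1
    exact (h3.mul h3).add_even (h4.mul_right _)
  have hm2 : m.Coprime 8 := by
    have : Odd m := by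
      rw [hm]
      exact Finset.prod_induction _ Odd (fun _ _ => Odd.mul) odd_one hodd
    have h2 : Nat.Coprime m 2 := Nat.Coprime.symm ((Nat.coprime_two_left).2 this)
    exact Nat.Coprime.pow_right 3 h2
  have hm0 : m ≠ 0 := by
    intro h
    rw [h] at hm2
    norm_num at hm2
  obtain ⟨a, ha1, ha2⟩ := Nat.chineseRemainder hm2 1 3
  have hac : a.Coprime (m * 8) := by
    apply Nat.Coprime.mul_right
    · have := Nat.ModEq.gcd_eq ha1
      rw [Nat.gcd_one_left] at this
      exact this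
    · have := Nat.ModEq.gcd_eq ha2
      exact this
  refine (Nat.infinite_setOfPred_prime_and_modEq (q := m * 8) (a := a)
    (Nat.mul_ne_zero hm0 (by norm_num)) hac).mono ?_
  rintro p ⟨hp, hpa⟩
  have h8 : p % 8 = 3 := (hpa.of_mul_left m).trans ha2
  have h1 : p ≡ 1 [MOD m] := (hpa.of_mul_right 8).trans ha1
  refine ⟨hp, hp.squarefree, fun q hq hqp => ?_⟩
  have hqp' : q = p := (Nat.prime_dvd_prime_iff_eq hq hp).1 hqp
  rw [hqp']
  refine ⟨h8, fun l hl1 hl2 hld => ?_⟩
  have hl : OP l := (op_iff l).2 ⟨hl1, hl2⟩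
  have hlQ : l ∈ Q := by
    rcases hl1.dvd_or_dvd hld with h | h
    · exact absurd h hl.odd
    · obtain ⟨x, hx, hlx⟩ := (Prime.dvd_finsetProd_iff hl1 _).1 h
      rw [hl.dvd (hQ x hx) hlx]
      exact hx
  obtain ⟨hOP, -⟩ := inert_OP hp h8
  -- `l ∣ p - 1`
  have h2 : l ∣ (p : GaussianInt) - 1 := by
    have h3 : l.norm.natAbs ∣ m := Finset.dvd_prod_of_mem _ hlQ
    have h4 : (l.norm.natAbs : ℤ) ∣ (p : ℤ) - 1 :=
      (Int.natCast_dvd_natCast.2 h3).trans ((Nat.modEq_iff_dvd.1 h1.symm))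
    have h5 : l ∣ ((l.norm : ℤ) : GaussianInt) := by
      rw [Zsqrtd.norm_eq_mul_conj]
      exact dvd_mul_right _ _
    obtain ⟨c, hc⟩ := Int.natAbs_dvd.1 h4
    refine h5.trans ⟨(c : GaussianInt), ?_⟩
    have : (((p : ℤ) - 1 : ℤ) : GaussianInt) = ((l.norm * c : ℤ) : GaussianInt) := by rw [hc]
    push_cast at this
    exact this
  have hne : -(p : GaussianInt) ≠ l := by
    intro h
    have h3 : l ∣ (p : GaussianInt) := by rw [← h]; exact (neg_dvd).2 (dvd_refl _)
    have h4 : l ∣ 1 := by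
      have := dvd_sub h3 h2
      rwa [sub_sub_cancel] at this
    exact hl1.not_unit (isUnit_of_dvd_one h4)
  rw [symbol_eq, ← leg_neg_left, recip hOP hl hne]
  have h3 : leg l (-(p : GaussianInt)) = leg l (-1) := leg_congr (by
    have e : -(p : GaussianInt) - -1 = -((p : GaussianInt) - 1) := by ring
    rw [e]
    exact (dvd_neg).2 h2)
  rw [h3]
  unfold leg
  have h4 : ¬ l ∣ (-1 : GaussianInt) := fun h => hl1.not_unit (isUnit_of_dvd_one ((dvd_neg).1 h))
  rw [if_neg h4, if_pos ⟨⟨0, 1⟩, by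
    have e : (⟨0, 1⟩ : GaussianInt) ^ 2 - -1 = 0 := by decide
    rw [e]
    exact dvd_zero _⟩]

end Pool.Agent.Helper35K9.LW.Rep
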