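import Pool.Agent.Helper35K9.LW.Stm

/-! [INC] inclusion and exclusion -/

set_option autoImplicit false

namespace Pool.Agent.Helper35K9.LW

open Finset
open scoped Classical

namespace IncL

theorem key {M : ℕ} (x : Fin M → ℝ) (B : Finset (Fin M)) :
    (∏ i ∈ B, x i) * ∏ i ∈ univ \ B, (1 - x i) =
      ∑ C ∈ (univ \ B).powerset, (-1) ^ C.card * ∏ i ∈ B ∪ C, x i := by
  have h := Finset.prod_add (fun i => - x i) (fun _ => (1 : ℝ)) (univ \ B)
  have h1 : ∏ i ∈ univ \ B, (1 - x i) = ∏ i ∈ univ \ B, (- x i + 1) :=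
    prod_congr rfl fun i _ => by ring
  rw [h1, h, mul_sum]
  refine sum_congr rfl fun C hC => ?_
  rw [mem_powerset] at hC
  have hd : Disjoint B C := by
    rw [Finset.disjoint_left]
    intro i hi hi2
    exact (mem_sdiff.1 (hC hi2)).2 hi
  rw [prod_const_one, mul_one, prod_neg, prod_union hd]
  ring

/-- the identity for indicator functions -/
theorem key1 {M : ℕ} (S B : Finset (Fin M)) :
    (if S = B then (1 : ℝ) else 0) =
      ∑ C ∈ (univ \ B).powerset, (-1) ^ C.card * (if B ∪ C ⊆ S then (1 : ℝ) else 0) := by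
  have h := key (fun i => if i ∈ S then (1 : ℝ) else 0) B
  have hp : ∀ A : Finset (Fin M), ∏ i ∈ A, (if i ∈ S then (1 : ℝ) else 0) =
      if A ⊆ S then 1 else 0 := by
    intro A
    split_ifs with hA
    · exact prod_eq_one fun i hi => if_pos (hA hi)
    · rw [Finset.not_subset] at hA
      obtain ⟨i, hi, hi2⟩ := hA
      exact prod_eq_zero hi (if_neg hi2)
  simp_rw [hp] at h
  rw [← h]
  by_cases hSB : S = B
  · rw [if_pos hSB, if_pos (by rw [hSB]), one_mul]
    symm
    apply prod_eq_one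
    intro i hi
    rw [mem_sdiff] at hi
    rw [if_neg (by rw [hSB]; exact hi.2), sub_zero]
  · rw [if_neg hSB]
    by_cases hBS : B ⊆ S
    · rw [if_pos hBS, one_mul]
      symm
      have : ∃ i ∈ S, i ∉ B := by
        by_contra hcon
        push Not at hcon
        exact hSB (Finset.Subset.antisymm hcon hBS)
      obtain ⟨i, hi, hi2⟩ := this
      apply prod_eq_zero (i := i) (by rw [mem_sdiff]; exact ⟨mem_univ _, hi2⟩)
      rw [if_pos hi, sub_self]
    · rw [if_neg hBS, zero_mul]

theorem key2 {M : ℕ} (c : ℝ) (B : Finset (Fin M)) :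
    c ^ B.card * (1 - c) ^ (M - B.card) =
      ∑ C ∈ (univ \ B).powerset, (-1) ^ C.card * c ^ (B ∪ C).card := by
  have h := key (fun _ => c) B
  simp only [prod_const] at h
  rw [← h]
  congr 2
  rw [card_sdiff_of_subset (subset_univ _), card_univ, Fintype.card_fin]

end IncL

/-- [INC] -/
theorem inc : S_INC := by
  intro M k c ε hε α Ω s hyp
  -- exact events
  have h1 : ∀ B : Finset (Fin M),
      (c ^ B.card * (1 - c) ^ (M - B.card)) * (Ω.card : ℝ) - 2 ^ M * ε * (Ω.card : ℝ) ≤
        ((Ω.filter fun Y => s Y = B).card : ℝ) := by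
    intro B
    have e1 : ((Ω.filter fun Y => s Y = B).card : ℝ) =
        ∑ C ∈ (univ \ B).powerset, (-1) ^ C.card *
          ((Ω.filter fun Y => B ∪ C ⊆ s Y).card : ℝ) := by
      rw [card_filter]
      push_cast
      have : ∀ Y ∈ Ω, (if s Y = B then (1 : ℝ) else 0) =
          ∑ C ∈ (univ \ B).powerset, (-1) ^ C.card * (if B ∪ C ⊆ s Y then (1 : ℝ) else 0) :=
        fun Y _ => IncL.key1 (s Y) B
      rw [sum_congr rfl this, sum_comm]
      refine sum_congr rfl fun C _ => ?_
      rw [← mul_sum, card_filter]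
      push_cast
      rfl
    have e2 : |((Ω.filter fun Y => s Y = B).card : ℝ) -
        (c ^ B.card * (1 - c) ^ (M - B.card)) * (Ω.card : ℝ)| ≤ 2 ^ M * ε * (Ω.card : ℝ) := by
      rw [e1, IncL.key2, sum_mul, ← sum_sub_distrib]
      refine (abs_sum_le_sum_abs _ _).trans ?_
      have e3 : ∀ C ∈ (univ \ B).powerset, |(-1) ^ C.card *
          ((Ω.filter fun Y => B ∪ C ⊆ s Y).card : ℝ) -
          (-1) ^ C.card * c ^ (B ∪ C).card * (Ω.card : ℝ)| ≤ ε * (Ω.card : ℝ) := by
        intro C _
        rw [mul_assoc, ← mul_sub, abs_mul, abs_pow, abs_neg, abs_one, one_pow, one_mul]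
        exact hyp (B ∪ C)
      refine (sum_le_sum e3).trans ?_
      rw [sum_const, card_powerset, nsmul_eq_mul]
      push_cast
      have e4 : (2 : ℝ) ^ (univ \ B).card ≤ 2 ^ M := by
        apply pow_le_pow_right₀ (by norm_num)
        have := card_le_card (sdiff_subset (s := (univ : Finset (Fin M))) (t := B))
        rwa [card_univ, Fintype.card_fin] at this
      have e5 : 0 ≤ ε * (Ω.card : ℝ) := by positivity
      calc (2 : ℝ) ^ (univ \ B).card * (ε * (Ω.card : ℝ)) ≤ 2 ^ M * (ε * (Ω.card : ℝ)) := by gcongr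
        _ = _ := by ring
    have := (abs_le.1 e2).1
    linarith
  -- sum over the sets with at least `k` elements
  set F : Finset (Finset (Fin M)) := univ.filter fun B => k ≤ B.card with hF
  have h2 : ((Ω.filter fun Y => k ≤ (s Y).card).card : ℝ) =
      ∑ B ∈ F, ((Ω.filter fun Y => s Y = B).card : ℝ) := by
    rw [← Nat.cast_sum]
    congr 1
    rw [card_eq_sum_card_fiberwise (f := s) (t := F)]
    · refine sum_congr rfl fun B hB => ?_
      congr 1
      ext Y
      simp only [mem_filter]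
      rw [hF, mem_filter] at hB
      constructor
      · rintro ⟨⟨h3, -⟩, h4⟩
        exact ⟨h3, h4⟩
      · rintro ⟨h3, h4⟩
        exact ⟨⟨h3, by rw [h4]; exact hB.2⟩, h4⟩
    · intro Y hY
      rw [Finset.mem_coe, mem_filter] at hY
      rw [Finset.mem_coe, hF, mem_filter]
      exact ⟨mem_univ _, hY.2⟩
  have h3 : ∑ B ∈ F, c ^ B.card * (1 - c) ^ (M - B.card) = bk M k c := by
    have h4 := Finset.sum_powerset_apply_card
      (fun j => if k ≤ j then c ^ j * (1 - c) ^ (M - j) else 0) (x := (univ : Finset (Fin M)))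
    rw [powerset_univ, card_univ, Fintype.card_fin] at h4
    rw [hF, sum_filter, h4]
    unfold bk
    rw [← sum_filter_add_sum_filter_not (range (M + 1)) (fun j => k ≤ j)]
    have h5 : ∑ j ∈ (range (M + 1)).filter (fun j => ¬ k ≤ j),
        M.choose j • (if k ≤ j then c ^ j * (1 - c) ^ (M - j) else 0) = 0 := by
      refine sum_eq_zero fun j hj => ?_
      rw [mem_filter] at hj
      rw [if_neg hj.2, smul_zero]
    rw [h5, add_zero]
    have h6 : (range (M + 1)).filter (fun j => k ≤ j) = Finset.Icc k M := by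
      ext j
      rw [mem_filter, mem_range, mem_Icc]
      omega
    rw [h6]
    refine sum_congr rfl fun j hj => ?_
    rw [mem_Icc] at hj
    rw [if_pos hj.1, nsmul_eq_mul]
    ring
  have h4 : (F.card : ℝ) ≤ 2 ^ M := by
    have : F.card ≤ (univ : Finset (Finset (Fin M))).card := card_le_card (filter_subset _ _)
    rw [card_univ, Fintype.card_finset, Fintype.card_fin] at this
    exact_mod_cast this
  rw [h2]
  calc (bk M k c - 4 ^ M * ε) * (Ω.card : ℝ)
      = bk M k c * (Ω.card : ℝ) - 2 ^ M * (2 ^ M * ε * (Ω.card : ℝ)) := by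
        rw [show (4 : ℝ) = 2 * 2 by norm_num, mul_pow]
        ring
    _ ≤ bk M k c * (Ω.card : ℝ) - (F.card : ℝ) * (2 ^ M * ε * (Ω.card : ℝ)) := by
        gcongr
    _ = ∑ B ∈ F, ((c ^ B.card * (1 - c) ^ (M - B.card)) * (Ω.card : ℝ) -
          2 ^ M * ε * (Ω.card : ℝ)) := by
        rw [sum_sub_distrib, ← sum_mul, h3, sum_const, nsmul_eq_mul]
    _ ≤ _ := sum_le_sum fun B _ => h1 B

end Pool.Agent.Helper35K9.LW
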