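import Pool.Agent.Helper35K9.LW.Stm

/-! [LLN] the law of large numbers for the tail of the binomial distribution -/

set_option autoImplicit false

namespace Pool.Agent.Helper35K9.LW

open Finset
open scoped Classical

namespace LlnL

theorem term_nonneg (M j : ℕ) (c : ℝ) (h0 : 0 ≤ c) (h1 : c ≤ 1) :
    0 ≤ (M.choose j : ℝ) * c ^ j * (1 - c) ^ (M - j) := by
  have : 0 ≤ 1 - c := by linarith
  positivity

theorem total (M : ℕ) (c : ℝ) :
    ∑ j ∈ range (M + 1), (M.choose j : ℝ) * c ^ j * (1 - c) ^ (M - j) = 1 := by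
  have h := add_pow c (1 - c) M
  have h2 : (c + (1 - c)) ^ M = 1 := by
    rw [add_sub_cancel, one_pow]
  refine Eq.trans (sum_congr rfl fun j _ => ?_) (h.symm.trans h2)
  ring

theorem var (M : ℕ) (c : ℝ) :
    ∑ j ∈ range (M + 1), ((M : ℝ) * c - j) ^ 2 *
      ((M.choose j : ℝ) * c ^ j * (1 - c) ^ (M - j)) = M * c * (1 - c) := by
  have h := congrArg (Polynomial.eval c) (bernsteinPolynomial.variance ℝ M)
  rw [Polynomial.eval_finsetSum] at h
  simp only [bernsteinPolynomial, Polynomial.eval_mul, Polynomial.eval_pow, Polynomial.eval_sub,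
    Polynomial.eval_X, Polynomial.eval_natCast, Polynomial.eval_one, nsmul_eq_mul] at h
  exact h

end LlnL

/-- [LLN] -/
theorem lln : S_LLN := by
  intro c h0 h1 ε hε
  obtain ⟨M₀, hM₀⟩ := exists_nat_gt (1 / ε ^ 3)
  refine ⟨M₀ + 1, fun M hM k hk => ?_⟩
  have hMr : 1 / ε ^ 3 < (M : ℝ) := hM₀.trans_le (by exact_mod_cast (by omega : M₀ ≤ M))
  have hM0 : (0 : ℝ) < M := lt_of_le_of_lt (by positivity) hMr
  have hkM : k ≤ M := by
    have : (k : ℝ) ≤ M := by nlinarith
    exact_mod_cast this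
  set t : ℕ → ℝ := fun j => (M.choose j : ℝ) * c ^ j * (1 - c) ^ (M - j) with ht
  have ht0 : ∀ j, 0 ≤ t j := fun j => LlnL.term_nonneg M j c h0 h1
  have hs : ∀ j ∈ range (M + 1), t j ≤ (if k ≤ j then t j else 0) +
      ((M : ℝ) * c - j) ^ 2 * t j / (ε * M) ^ 2 := by
    intro j _
    split_ifs with h
    · have : 0 ≤ ((M : ℝ) * c - j) ^ 2 * t j / (ε * M) ^ 2 := by
        have := ht0 j
        positivity
      linarith
    · rw [zero_add]
      have h3 : (j : ℝ) ≤ k := by exact_mod_cast (by omega : j ≤ k)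
      have h4 : ε * M ≤ (M : ℝ) * c - j := by
        have : (k : ℝ) ≤ (c - ε) * M := hk
        linarith
      rw [le_div_iff₀ (by positivity)]
      have h5 : (ε * M) ^ 2 ≤ ((M : ℝ) * c - j) ^ 2 :=
        pow_le_pow_left₀ (by positivity) h4 2
      have := mul_le_mul_of_nonneg_left h5 (ht0 j)
      linarith
  have h5 := sum_le_sum hs
  rw [LlnL.total, sum_add_distrib, ← sum_div, LlnL.var] at h5
  have h6 : ∑ j ∈ range (M + 1), (if k ≤ j then t j else 0) = bk M k c := by
    rw [← sum_filter]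
    unfold bk
    congr 1
    ext j
    rw [mem_filter, mem_range, mem_Icc]
    omega
  rw [h6] at h5
  have h7 : (M : ℝ) * c * (1 - c) / (ε * M) ^ 2 ≤ ε := by
    rw [div_le_iff₀ (by positivity)]
    rw [div_lt_iff₀ (by positivity)] at hMr
    have h8 : c * (1 - c) ≤ 1 := by nlinarith
    have h9 : (M : ℝ) * c * (1 - c) ≤ M * 1 := by
      rw [mul_assoc]
      exact mul_le_mul_of_nonneg_left h8 hM0.le
    have h10 : (M : ℝ) * 1 ≤ M * (M * ε ^ 3) := mul_le_mul_of_nonneg_left hMr.le hM0.le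
    calc (M : ℝ) * c * (1 - c) ≤ M * 1 := h9
      _ ≤ M * (M * ε ^ 3) := h10
      _ = ε * (ε * M) ^ 2 := by ring
  linarith

end Pool.Agent.Helper35K9.LW
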