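import Pool.Agent.Helper35K9.LW.Stm

/-! [MON] the tail of the binomial distribution is strictly increasing in `c` -/

set_option autoImplicit false

namespace Pool.Agent.Helper35K9.LW

open Finset
open scoped Classical

namespace MonL

theorem term_nonneg (M j : ℕ) (c : ℝ) (h0 : 0 ≤ c) (h1 : c ≤ 1) :
    0 ≤ (M.choose j : ℝ) * c ^ j * (1 - c) ^ (M - j) := by
  have : 0 ≤ 1 - c := by linarith
  positivity

theorem bk_zero (M : ℕ) (c : ℝ) : bk M 0 c = 1 := by
  unfold bk
  have h := add_pow c (1 - c) M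
  have e : Finset.Icc 0 M = range (M + 1) := by
    ext j
    rw [mem_Icc, mem_range]
    omega
  rw [e]
  have h2 : (c + (1 - c)) ^ M = 1 := by
    rw [add_sub_cancel, one_pow]
  refine Eq.trans (sum_congr rfl fun j _ => ?_) (h.symm.trans h2)
  ring

theorem bk_self (M : ℕ) (c : ℝ) : bk M M c = c ^ M := by
  unfold bk
  rw [Icc_self, sum_singleton]
  simp

theorem bk_gt (M k : ℕ) (c : ℝ) (h : M < k) : bk M k c = 0 := by
  unfold bk
  rw [Finset.Icc_eq_empty (by omega), sum_empty]

theorem anti (M k : ℕ) (c : ℝ) (h0 : 0 ≤ c) (h1 : c ≤ 1) : bk M (k + 1) c ≤ bk M k c := by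
  unfold bk
  apply sum_le_sum_of_subset_of_nonneg
  · apply Finset.Icc_subset_Icc_left
    omega
  · intro j _ _
    exact term_nonneg M j c h0 h1

theorem pascal (M k : ℕ) (c : ℝ) :
    bk (M + 1) (k + 1) c = c * bk M k c + (1 - c) * bk M (k + 1) c := by
  unfold bk
  have e1 : ∑ j ∈ Finset.Icc (k + 1) (M + 1), ((M + 1).choose j : ℝ) * c ^ j *
      (1 - c) ^ (M + 1 - j) =
      ∑ j ∈ Finset.Icc (k + 1) (M + 1), (M.choose (j - 1) : ℝ) * c ^ j * (1 - c) ^ (M + 1 - j) +
      ∑ j ∈ Finset.Icc (k + 1) (M + 1), (M.choose j : ℝ) * c ^ j * (1 - c) ^ (M + 1 - j) := by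
    rw [← sum_add_distrib]
    refine sum_congr rfl fun j hj => ?_
    rw [mem_Icc] at hj
    obtain ⟨i, rfl⟩ : ∃ i, j = i + 1 := ⟨j - 1, by omega⟩
    rw [Nat.choose_succ_succ, Nat.add_sub_cancel]
    push_cast
    ring
  have e2 : ∑ j ∈ Finset.Icc (k + 1) (M + 1), (M.choose (j - 1) : ℝ) * c ^ j *
      (1 - c) ^ (M + 1 - j) = c * ∑ j ∈ Finset.Icc k M, (M.choose j : ℝ) * c ^ j *
      (1 - c) ^ (M - j) := by
    have hI : Finset.Icc (k + 1) (M + 1) = (Finset.Icc k M).image (· + 1) := by
      ext j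
      simp only [mem_Icc, mem_image]
      constructor
      · rintro ⟨h1, h2⟩
        exact ⟨j - 1, ⟨by omega, by omega⟩, by omega⟩
      · rintro ⟨i, ⟨h1, h2⟩, rfl⟩
        omega
    rw [hI, sum_image (fun a _ b _ h => by simpa using h), mul_sum]
    refine sum_congr rfl fun j _ => ?_
    rw [Nat.add_sub_cancel, Nat.add_sub_add_right]
    ring
  have e3 : ∑ j ∈ Finset.Icc (k + 1) (M + 1), (M.choose j : ℝ) * c ^ j *
      (1 - c) ^ (M + 1 - j) = (1 - c) * ∑ j ∈ Finset.Icc (k + 1) M, (M.choose j : ℝ) * c ^ j *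
      (1 - c) ^ (M - j) := by
    rw [mul_sum]
    symm
    apply sum_subset_zero_on_sdiff
    · exact Finset.Icc_subset_Icc_right (by omega)
    · intro j hj
      rw [mem_sdiff, mem_Icc, mem_Icc] at hj
      have : j = M + 1 := by omega
      rw [this, Nat.choose_succ_self]
      simp
    · intro j hj
      rw [mem_Icc] at hj
      have : M + 1 - j = (M - j) + 1 := by omega
      rw [this, pow_succ]
      ring
  rw [e1, e2, e3]

theorem mono : ∀ (M k : ℕ) (c c' : ℝ), 0 < c → c < c' → c' ≤ 1 → 1 ≤ k → k ≤ M →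
    bk M k c < bk M k c' := by
  intro M
  induction M with
  | zero => intro k c c' _ _ _ h1 h2; omega
  | succ M ih =>
    intro k c c' hc hcc hc' hk hkM
    obtain ⟨k, rfl⟩ : ∃ i, k = i + 1 := ⟨k - 1, by omega⟩
    rw [pascal, pascal]
    have ha : bk M k c ≤ bk M k c' := by
      rcases Nat.eq_zero_or_pos k with h | h
      · rw [h, bk_zero, bk_zero]
      · exact (ih k c c' hc hcc hc' h (by omega)).le
    have hb : bk M (k + 1) c ≤ bk M (k + 1) c' := by
      rcases Nat.lt_or_ge M (k + 1) with h | h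
      · rw [bk_gt _ _ _ h, bk_gt _ _ _ h]
      · exact (ih (k + 1) c c' hc hcc hc' (by omega) h).le
    have hab : bk M (k + 1) c' ≤ bk M k c' := anti M k c' (by linarith) hc'
    have e1 : 0 ≤ (c' - c) * (bk M k c' - bk M (k + 1) c') :=
      mul_nonneg (by linarith) (by linarith)
    have e2 : 0 ≤ c * (bk M k c' - bk M k c) := mul_nonneg hc.le (by linarith)
    have e3 : 0 ≤ (1 - c) * (bk M (k + 1) c' - bk M (k + 1) c) :=
      mul_nonneg (by linarith) (by linarith)
    have key : c' * bk M k c' + (1 - c') * bk M (k + 1) c' -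
        (c * bk M k c + (1 - c) * bk M (k + 1) c) =
        (c' - c) * (bk M k c' - bk M (k + 1) c') + c * (bk M k c' - bk M k c) +
        (1 - c) * (bk M (k + 1) c' - bk M (k + 1) c) := by ring
    have hpos : 0 < (c' - c) * (bk M k c' - bk M (k + 1) c') + c * (bk M k c' - bk M k c) +
        (1 - c) * (bk M (k + 1) c' - bk M (k + 1) c) := by
      rcases Nat.eq_zero_or_pos k with h | h
      · subst h
        rcases Nat.eq_zero_or_pos M with hM | hM
        · subst hM
          rw [bk_gt 0 (0 + 1) c' (by omega), bk_gt 0 (0 + 1) c (by omega), bk_zero, bk_zero]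
          linarith
        · have h4 := ih 1 c c' hc hcc hc' le_rfl hM
          have h5 : 0 < (1 - c) * (bk M (0 + 1) c' - bk M (0 + 1) c) :=
            mul_pos (by linarith) (by rw [zero_add]; linarith)
          linarith
      · have h4 := ih k c c' hc hcc hc' h (by omega)
        have h5 : 0 < c * (bk M k c' - bk M k c) := mul_pos hc (by linarith)
        linarith
    linarith

end MonL

/-- [MON] -/
theorem mon : S_MON := by
  refine ⟨MonL.mono, MonL.bk_self, MonL.bk_zero, fun M k c h0 h1 => ⟨?_, ?_⟩⟩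
  · exact sum_nonneg fun j _ => MonL.term_nonneg M j c h0 h1
  · rw [← MonL.bk_zero M c]
    unfold bk
    apply sum_le_sum_of_subset_of_nonneg
    · apply Finset.Icc_subset_Icc_left
      omega
    · intro j _ _
      exact MonL.term_nonneg M j c h0 h1

end Pool.Agent.Helper35K9.LW
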