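import Pool.Agent.Helper35K9.LW.Dim

/-!
# REP: the representations containing the character of `√δ` do not occur in `ℂ ⊗ E_d(F)`
-/

set_option autoImplicit false

namespace Pool.Agent.Helper35K9.LW.Rep

open WeierstrassCurve TensorProduct

namespace RepL

open DimL

variable {F : Type} [Field F] [NumberField F] (ι : GaussianInt →+* F)

omit [NumberField F] in
lemma iota_inj [CharZero F] : Function.Injective ι := by
  rw [injective_iff_map_eq_zero]
  intro z hz
  have h1 : ι (z * star z) = 0 := by rw [map_mul, hz, zero_mul]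
  have h2 : z * star z = ((z.norm : ℤ) : GaussianInt) := by rw [Zsqrtd.norm_eq_mul_conj]
  rw [h2, map_intCast] at h1
  have h3 : z.norm = 0 := by exact_mod_cast h1
  exact (GaussianInt.norm_eq_zero (x := z)).mp h3

/-- the embedding of `ℚ(i)` -/
noncomputable def emb : FractionRing GaussianInt →+* F :=
  IsFractionRing.lift (iota_inj ι)

lemma emb_alg (z : GaussianInt) : emb ι (algebraMap _ _ z) = ι z :=
  IsFractionRing.lift_algebraMap (iota_inj ι) z

lemma emb_rat (q : ℚ) : emb ι (q : FractionRing GaussianInt) = (q : F) := by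
  simp

/-- an element fixed by `H` is in the image of `ℚ(i)` -/
lemma exists_of_fixed [IsGalois ℚ F] {x : F} (hH : ∀ σ : F ≃ₐ[ℚ] F, σ (I ι) = I ι → σ x = x) :
    ∃ k : FractionRing GaussianInt, emb ι k = x := by
  obtain ⟨τ, hτ⟩ := exists_tau ι
  have hττ : τ (τ x) = x := by
    rw [← AlgEquiv.mul_apply]
    exact hH _ (mul_H ι hτ hτ)
  have hσ : ∀ σ : F ≃ₐ[ℚ] F, σ (I ι) = I ι → σ (τ x) = τ x := by
    intro σ h
    have h1 : σ (τ x) = τ ((τ⁻¹ * σ * τ) x) := by
      rw [← AlgEquiv.mul_apply, ← AlgEquiv.mul_apply]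
      congr 1
      group
    rw [h1, hH _ (conj_H ι hτ h)]
  obtain ⟨p, hp⟩ := rational_of_fixed ι hτ (x := x + τ x)
    (fun σ h => by rw [map_add, hH σ h, hσ σ h]) (by rw [map_add, hττ, add_comm])
  obtain ⟨q, hq⟩ := rational_of_fixed ι hτ (x := (x - τ x) * I ι)
    (fun σ h => by rw [map_mul, map_sub, hH σ h, hσ σ h, h])
    (by rw [map_mul, map_sub, hττ, hτ]; ring)
  refine ⟨((p / 2 : ℚ) : FractionRing GaussianInt) -
    ((q / 2 : ℚ) : FractionRing GaussianInt) * algebraMap _ _ (⟨0, 1⟩ : GaussianInt), ?_⟩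
  rw [map_sub, map_mul, emb_rat, emb_rat, emb_alg]
  have h2 : (2 : F) ≠ 0 := two_ne_zero
  push_cast
  rw [← hp, ← hq]
  have hI := I_sq ι
  field_simp
  linear_combination -(x - τ x) * hI

section curve

open Classical in
/-- the action of `σ` on the points -/
noncomputable def mp (W : WeierstrassCurve ℚ) (σ : F ≃ₐ[ℚ] F) : Pts F W →+ Pts F W :=
  Affine.Point.map (W' := W.toAffine) (σ : F →ₐ[ℚ] F)

open Classical in
lemma mp_mul (W : WeierstrassCurve ℚ) (σ σ' : F ≃ₐ[ℚ] F) (P : Pts F W) :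
    mp W (σ * σ') P = mp W σ (mp W σ' P) := by
  show Affine.Point.map (W' := W.toAffine) ((σ * σ' : F ≃ₐ[ℚ] F) : F →ₐ[ℚ] F) P =
    Affine.Point.map (W' := W.toAffine) (σ : F →ₐ[ℚ] F)
      (Affine.Point.map (W' := W.toAffine) (σ' : F →ₐ[ℚ] F) P)
  rw [Affine.Point.map_map]
  rfl

open Classical in
/-- the sign -/
noncomputable def chi (r : F) (σ : F ≃ₐ[ℚ] F) : ℤ := if σ r = r then 1 else -1

lemma chi_r {δ : GaussianInt} {r : F} (hr : r ^ 2 = ι δ) {σ : F ≃ₐ[ℚ] F} (hσ : σ (I ι) = I ι) :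
    σ r = (chi r σ : F) * r := by
  unfold chi
  rcases r_pm ι hr hσ with h | h
  · rw [if_pos h]; simpa using h
  · by_cases h' : σ r = r
    · rw [if_pos h']; simpa using h'
    · rw [if_neg h']; simpa using h

lemma chi_sq (r : F) (σ : F ≃ₐ[ℚ] F) : chi r σ * chi r σ = 1 := by
  unfold chi; split_ifs <;> norm_num

lemma chi_mul {δ : GaussianInt} {r : F} (hr0 : r ≠ 0) (hr : r ^ 2 = ι δ) {σ σ' : F ≃ₐ[ℚ] F}
    (hσ : σ (I ι) = I ι) (hσ' : σ' (I ι) = I ι) : chi r (σ * σ') = chi r σ * chi r σ' := by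
  have h1 : (σ * σ') (I ι) = I ι := by rw [AlgEquiv.mul_apply, hσ', hσ]
  have h2 := chi_r ι hr h1
  rw [AlgEquiv.mul_apply, chi_r ι hr hσ', map_mul, map_intCast, chi_r ι hr hσ, ← mul_assoc] at h2
  have h3 := mul_right_cancel₀ hr0 h2
  have h4 : ((chi r σ' * chi r σ : ℤ) : F) = ((chi r (σ * σ') : ℤ) : F) := by
    push_cast; exact h3
  have h5 : chi r σ' * chi r σ = chi r (σ * σ') := by exact_mod_cast h4
  rw [← h5, mul_comm]

open Classical in
/-- the group `H` -/
noncomputable def HH : Finset (F ≃ₐ[ℚ] F) := Finset.univ.filter (fun σ => σ (I ι) = I ι)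

open Classical in
lemma mem_HH {σ : F ≃ₐ[ℚ] F} : σ ∈ HH ι ↔ σ (I ι) = I ι := by
  simp [HH]

open Classical in
/-- the projection -/
noncomputable def pr (W : WeierstrassCurve ℚ) (r : F) (P : Pts F W) : Pts F W :=
  ∑ σ ∈ HH ι, chi r σ • mp W σ P

open Classical in
lemma mp_pr (W : WeierstrassCurve ℚ) {δ : GaussianInt} {r : F} (hr0 : r ≠ 0) (hr : r ^ 2 = ι δ)
    {σ : F ≃ₐ[ℚ] F} (hσ : σ (I ι) = I ι) (P : Pts F W) :
    mp W σ (pr ι W r P) = chi r σ • pr ι W r P := by
  unfold pr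
  rw [map_sum, Finset.smul_sum]
  have h1 : ∀ x ∈ HH ι, mp W σ (chi r x • mp W x P) =
      chi r σ • (chi r (σ * x) • mp W (σ * x) P) := by
    intro x hx
    rw [map_zsmul, ← mp_mul, chi_mul ι hr0 hr hσ ((mem_HH ι).mp hx), smul_smul, ← mul_assoc,
      chi_sq, one_mul]
  rw [Finset.sum_congr rfl h1]
  refine Finset.sum_bij (fun x _ => σ * x) ?_ ?_ ?_ ?_
  · intro x hx
    rw [mem_HH] at hx ⊢
    rw [AlgEquiv.mul_apply, hx, hσ]
  · intro a _ b _ hab
    exact mul_left_cancel hab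
  · intro b hb
    refine ⟨σ⁻¹ * b, ?_, by simp⟩
    rw [mem_HH] at hb ⊢
    have h2 : σ⁻¹ (I ι) = I ι := by
      conv_lhs => rw [← hσ]
      rw [← AlgEquiv.mul_apply, inv_mul_cancel, AlgEquiv.one_apply]
    rw [AlgEquiv.mul_apply, hb, h2]
  · intro x _
    rfl

/-- the equation over `ℚ(i)` -/
lemma y_zero [IsGalois ℚ F] {d : ℕ} {δ : GaussianInt} (hd : d ≠ 0)
    (hot : OnlyTorsion ((d : GaussianInt) * δ)) {r : F} (hr0 : r ≠ 0) (hr : r ^ 2 = ι δ) {x y : F}
    (hxy : y ^ 2 = x ^ 3 - (d : F) ^ 2 * x)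
    (hx : ∀ σ : F ≃ₐ[ℚ] F, σ (I ι) = I ι → σ x = x)
    (hy : ∀ σ : F ≃ₐ[ℚ] F, σ (I ι) = I ι → σ y = (chi r σ : F) * y) : y = 0 := by
  obtain ⟨X, hX⟩ := exists_of_fixed ι hx
  obtain ⟨Y, hY⟩ := exists_of_fixed ι (x := y / r) (by
    intro σ h
    have h1 := chi_sq r σ
    have h2 : (chi r σ : F) * (chi r σ : F) = 1 := by exact_mod_cast congrArg (Int.cast : ℤ → F) h1
    have h3 : (chi r σ : F) ≠ 0 := by
      intro h0
      rw [h0, zero_mul] at h2
      exact zero_ne_one h2
    rw [map_div₀, hy σ h, chi_r ι hr h, mul_div_mul_left _ _ h3])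
  have hyY : y = r * emb ι Y := by
    rw [hY]; field_simp
  have hdK : (d : FractionRing GaussianInt) ≠ 0 := by exact_mod_cast hd
  have heq : algebraMap GaussianInt (FractionRing GaussianInt) δ * Y ^ 2 =
      X ^ 3 - (d : FractionRing GaussianInt) ^ 2 * X := by
    apply (emb ι).injective
    rw [map_mul, map_pow, emb_alg, map_sub, map_mul, map_pow, map_pow, hX, map_natCast, ← hxy, hyY,
      mul_pow, hr]
  have h1 := hot (X / d) (Y / (d : FractionRing GaussianInt) ^ 2) (by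
    rw [map_mul, map_natCast]
    field_simp
    linear_combination heq)
  have h2 : Y = 0 := by
    rcases div_eq_zero_iff.mp h1 with h | h
    · exact h
    · exact absurd h (pow_ne_zero 2 hdK)
  rw [hyY, h2, map_zero, mul_zero]

open Classical in
lemma eq_neg_pr [IsGalois ℚ F] {d : ℕ} {δ : GaussianInt} (hd : d ≠ 0)
    (hot : OnlyTorsion ((d : GaussianInt) * δ)) {r : F} (hr0 : r ≠ 0) (hr : r ^ 2 = ι δ)
    (P : Pts F (E d)) : pr ι (E d) r P = - pr ι (E d) r P := by
  have key := fun (σ : F ≃ₐ[ℚ] F) (hσ : σ (I ι) = I ι) => mp_pr ι (E d) hr0 hr hσ P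
  generalize pr ι (E d) r P = Q at key ⊢
  match Q with
  | 0 => simp
  | .some x y h =>
    have ha1 : ((E d).baseChange F).toAffine.a₁ = 0 := by simp [E]
    have ha2 : ((E d).baseChange F).toAffine.a₂ = 0 := by simp [E]
    have ha3 : ((E d).baseChange F).toAffine.a₃ = 0 := by simp [E]
    have ha4 : ((E d).baseChange F).toAffine.a₄ = - (d : F) ^ 2 := by simp [E]
    have ha6 : ((E d).baseChange F).toAffine.a₆ = 0 := by simp [E]
    have hneg : ∀ a b : F, ((E d).baseChange F).toAffine.negY a b = - b := by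
      intro a b
      rw [Affine.negY, ha1, ha3]; ring
    have hxy : y ^ 2 = x ^ 3 - (d : F) ^ 2 * x := by
      have h1 := h.1
      rw [Affine.equation_iff, ha1, ha2, ha3, ha4, ha6] at h1
      linear_combination h1
    have hboth : ∀ σ : F ≃ₐ[ℚ] F, σ (I ι) = I ι → σ x = x ∧ σ y = (chi r σ : F) * y := by
      intro σ hσ
      have h2 := key σ hσ
      have h3 : mp (E d) σ (.some x y h) = .some (σ x) (σ y)
        (((E d).toAffine.baseChange_nonsingular (σ : F →ₐ[ℚ] F).injective ..).mpr h) := rfl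
      rw [h3] at h2
      by_cases hc : σ r = r
      · have hc1 : chi r σ = 1 := by simp [chi, hc]
        rw [hc1, one_smul] at h2
        have h4 := Affine.Point.some.inj h2
        refine ⟨h4.1, ?_⟩
        rw [h4.2, hc1]; simp
      · have hc1 : chi r σ = -1 := by simp [chi, hc]
        rw [hc1, neg_smul, one_smul, Affine.Point.neg_some] at h2
        have h4 := Affine.Point.some.inj h2
        rw [hneg] at h4
        refine ⟨h4.1, ?_⟩
        rw [h4.2, hc1]; simp
    have hy0 := y_zero ι hd hot hr0 hr hxy (fun σ hσ => (hboth σ hσ).1) (fun σ hσ => (hboth σ hσ).2)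
    rw [Affine.Point.neg_some]
    subst hy0
    congr 1
    rw [hneg, neg_zero]

open Classical in
/-- pure tensors -/
noncomputable def tm (W : WeierstrassCurve ℚ) (c : ℂ) (P : Pts F W) : VE F W :=
  (c ⊗ₜ[ℤ] P : ℂ ⊗[ℤ] Pts F W)

open Classical in
lemma act_tm (W : WeierstrassCurve ℚ) (σ : F ≃ₐ[ℚ] F) (c : ℂ) (P : Pts F W) :
    act F W σ (tm W c P) = tm W c (mp W σ P) := rfl

open Classical in
lemma tm_sum (W : WeierstrassCurve ℚ) {κ : Type} (s : Finset κ) (c : ℂ) (g : κ → Pts F W) :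
    tm W c (∑ k ∈ s, g k) = ∑ k ∈ s, tm W c (g k) :=
  TensorProduct.tmul_sum c s g

open Classical in
lemma tm_zsmul (W : WeierstrassCurve ℚ) (c : ℂ) (n : ℤ) (P : Pts F W) :
    tm W c (n • P) = (n : ℂ) • tm W c P := by
  have h1 : (c ⊗ₜ[ℤ] (n • P) : ℂ ⊗[ℤ] Pts F W) = ((n : ℂ) * c) ⊗ₜ[ℤ] P := by
    rw [← TensorProduct.smul_tmul, zsmul_eq_mul]
  exact h1

open Classical in
lemma tm_neg (W : WeierstrassCurve ℚ) (c : ℂ) (P : Pts F W) : tm W c (-P) = - tm W c P :=
  TensorProduct.tmul_neg c P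

open Classical in
lemma tm_ind (W : WeierstrassCurve ℚ) {p : VE F W → Prop} (h0 : p 0) (h1 : ∀ c P, p (tm W c P))
    (h2 : ∀ x y, p x → p y → p (x + y)) (x : VE F W) : p x :=
  TensorProduct.induction_on (motive := p) x h0 h1 h2

end curve

end RepL

open RepL DimL in
open Classical in
theorem rep : S_REP := by
  intro d δ hd hδ hot F _ _ _ ι r hr V _ _ ρ hirr hcon
  obtain ⟨v, hv0, hv⟩ := hcon
  have hv' : ∀ σ : F ≃ₐ[ℚ] F, σ (I ι) = I ι → (σ r = r → ρ σ v = v) ∧ (σ r = -r → ρ σ v = -v) := hv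
  have hr0 : r ≠ 0 := by
    intro h
    apply hδ
    apply iota_inj ι
    rw [← hr, h, map_zero]; simp
  -- the operator
  set T : VE F (E d) →ₗ[ℂ] VE F (E d) := ∑ σ ∈ HH ι, (chi r σ : ℂ) • act F (E d) σ with hT
  have hT0 : ∀ x : VE F (E d), T x = 0 := by
    intro x
    induction x using tm_ind with
    | h0 => exact map_zero T
    | h2 x y hx hy => rw [map_add, hx, hy, add_zero]
    | h1 c P =>
      have h1 : T (tm (E d) c P) = tm (E d) c (pr ι (E d) r P) := by
        rw [hT, LinearMap.sum_apply, pr, tm_sum]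
        refine Finset.sum_congr rfl (fun σ _ => ?_)
        rw [LinearMap.smul_apply, act_tm, tm_zsmul]
      rw [h1]
      have h4 := eq_neg_pr ι hd hot hr0 hr P
      have h5 : tm (E d) c (pr ι (E d) r P) = - tm (E d) c (pr ι (E d) r P) := by
        rw [← tm_neg, ← h4]
      have h6 : (2 : ℂ) • tm (E d) c (pr ι (E d) r P) = 0 := by
        rw [two_smul]
        nth_rewrite 2 [h5]
        exact add_neg_cancel _
      exact (smul_eq_zero.mp h6).resolve_left two_ne_zero
  have hmem : ∀ f ∈ HomG F (E d) ρ, f = 0 := by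
    intro f hf
    have hf' : IsHom F (E d) ρ f := hf
    have h1 : T (f v) = ((HH ι).card : ℂ) • f v := by
      rw [hT, LinearMap.sum_apply]
      have h2 : ∀ σ ∈ HH ι, ((chi r σ : ℂ) • act F (E d) σ) (f v) = f v := by
        intro σ hσ
        rw [mem_HH] at hσ
        rw [LinearMap.smul_apply, ← hf' σ v]
        rcases r_pm ι hr hσ with h | h
        · rw [(hv' σ hσ).1 h]
          simp [chi, h]
        · rw [(hv' σ hσ).2 h]
          have h3 : ¬ σ r = r := by
            intro h4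
            rw [h4] at h
            exact hr0 (self_eq_neg.mp h)
          simp [chi, h3]
      rw [Finset.sum_congr rfl h2, Finset.sum_const, Nat.cast_smul_eq_nsmul]
    have h2 : T (f v) = 0 := hT0 (f v)
    rw [h2] at h1
    have hcard : ((HH ι).card : ℂ) ≠ 0 := by
      have : (HH ι).Nonempty := ⟨1, by rw [mem_HH]; rfl⟩
      exact_mod_cast (Finset.card_pos.mpr this).ne'
    have hfv : f v = 0 := (smul_eq_zero.mp h1.symm).resolve_left hcard
    rcases hirr.2 (LinearMap.ker f) (by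
      intro g u hu
      rw [LinearMap.mem_ker] at hu ⊢
      rw [hf' g u, hu, map_zero]) with h | h
    · exfalso
      apply hv0
      have : v ∈ LinearMap.ker f := hfv
      rw [h] at this
      exact (Submodule.mem_bot ℂ).mp this
    · exact LinearMap.ker_eq_top.mp h
  have hbot : HomG F (E d) ρ = ⊥ := by
    rw [Submodule.eq_bot_iff]
    exact hmem
  unfold mult
  rw [hbot]
  exact finrank_bot ℂ _

end Pool.Agent.Helper35K9.LW.Rep
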