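import Pool.Agent.Helper35K9.LW.Fam

/-! The rule from the criterion. -/

set_option autoImplicit false

namespace Pool.Agent.Helper35K9.LW.Rep

open Pool.Agent.Helper35K9.TW
open Pool.Agent.Y697.MQ (OP leg Gd gA)

/-- the number `δ conj δ` is not a square -/
theorem not_sq {Q : Finset GaussianInt} (hQ : ∀ x ∈ Q, OP x) :
    ¬ IsSquare (((⟨1, 1⟩ : GaussianInt) * ∏ x ∈ Q, x) * star ((⟨1, 1⟩ : GaussianInt) * ∏ x ∈ Q, x)) := by
  rintro ⟨z, hz⟩
  have h1 := Pool.Agent.Y697.MQ.Pr_prod fun x hx => (hQ x hx).pm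
  have h2 := (Pr_iff2 _).1 h1
  set g : GaussianInt := ∏ x ∈ Q, x with hg
  have h3 : ((⟨1, 1⟩ : GaussianInt) * g) * star ((⟨1, 1⟩ : GaussianInt) * g) =
      ((2 * (g.re * g.re + g.im * g.im) : ℤ) : GaussianInt) := by
    rw [← Zsqrtd.norm_eq_mul_conj, Zsqrtd.norm_mul]
    have e1 : (⟨1, 1⟩ : GaussianInt).norm = 2 := by decide
    have e2 : g.norm = g.re * g.re + g.im * g.im := by rw [Zsqrtd.norm_def]; ring
    rw [e1, e2]
  rw [h3] at hz
  have hre := congrArg Zsqrtd.re hz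
  have him := congrArg Zsqrtd.im hz
  rw [Zsqrtd.re_intCast] at hre
  rw [Zsqrtd.im_intCast] at him
  simp only [Zsqrtd.re_mul, Zsqrtd.im_mul] at hre him
  have hodd : Odd (g.re * g.re + g.im * g.im) := by
    have h4 : Odd g.re := by
      rw [Int.odd_iff]
      omega
    have h5 : Even g.im := Int.even_iff.2 h2.1
    exact (h4.mul h4).add_even (h5.mul_right _)
  obtain ⟨n, hn⟩ := hodd
  have hpos : 0 < g.re * g.re + g.im * g.im := by
    have h6 : g.re * g.re + g.im * g.im ≠ 0 := by omega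
    have h7 : 0 ≤ g.re * g.re + g.im * g.im := add_nonneg (mul_self_nonneg _) (mul_self_nonneg _)
    omega
  have him' : z.re * z.im = 0 := by nlinarith
  rcases mul_eq_zero.1 him' with h0 | h0
  · rw [h0] at hre
    nlinarith [mul_self_nonneg z.im]
  · rw [h0] at hre
    have h8 : z.re * z.re = 2 * (2 * n + 1) := by
      rw [← hn]
      linarith
    have h9 : Even (z.re * z.re) := ⟨2 * n + 1, by rw [h8]; ring⟩
    have h10 : Even z.re := by
      rcases Int.even_mul.1 h9 with h | h <;> exact h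
    obtain ⟨m, hm⟩ := h10
    rw [hm] at h8
    have h11 : 2 * (m * m) = 2 * n + 1 := by nlinarith
    omega

/-- the two index sets -/
def eqv : {p : GaussianInt // Prime p ∧ Primary p} ≃ Pool.Agent.Y690.PP.Pr :=
  Equiv.subtypeEquivRight fun _ => Iff.rfl

/-- the product of the two `L`-functions -/
theorem nonvan {D D' e : GaussianInt} (h : D = D' * e ^ 2) (he : IsUnit e)
    (hL : Pool.Agent.Y690.PP.Fn.GoodL D') : NonvanishingAtOne D := by
  obtain ⟨L₁, ⟨h1, h2⟩, h3⟩ := hL 1 1 0 le_rfl rfl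
  obtain ⟨L₂, ⟨h4, h5⟩, h6⟩ := hL 1 0 1 le_rfl rfl
  refine ⟨fun s => L₁ s * L₂ s, h1.mul h4, fun s hs => ?_, ?_⟩
  · have h7 := h2 s (by push_cast; linarith)
    have h8 := h5 s (by push_cast; linarith)
    have h9 := (eqv.hasProd_iff).2 (h7.mul h8)
    convert h9 using 1
    funext p
    have hp : Prime p.1 := p.2.1
    simp only [Function.comp_apply]
    have h10 : symbol p.1 D = Pool.Agent.Y690.PP.qs p.1 D' := by
      rw [symbol_eq, h, leg_i hp (fun hd => hp.not_isUnit (isUnit_of_dvd_unit hd he)), leg_eq_qs]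
    have e1 : (eqv p).1 = p.1 := rfl
    rw [h10, mul_inv, e1, pow_one, pow_zero, mul_one, pow_one, pow_zero, mul_one]
  · have h7 : (1 : ℂ) = ((1 : ℕ) : ℂ) := by norm_num
    rw [h7]
    exact mul_ne_zero h3 h6

/-- the rule -/
theorem rule_of (hrep : S_REP) (hdim : S_DIM) {Q : Finset GaussianInt} (hQ : ∀ x ∈ Q, OP x) {d : ℕ}
    (hd : d ≠ 0) {D' e : GaussianInt}
    (h1 : (d : GaussianInt) * ((⟨1, 1⟩ : GaussianInt) * ∏ x ∈ Q, x) = D' * e ^ 2) (h2 : IsUnit e)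
    (h3 : Pool.Agent.Y690.PP.Fn.GoodP D') (h4 : Pool.Agent.Y690.PP.Fn.GoodL D') :
    Rule d ((⟨1, 1⟩ : GaussianInt) * ∏ x ∈ Q, x) := by
  have hδ : (⟨1, 1⟩ : GaussianInt) * ∏ x ∈ Q, x ≠ 0 :=
    mul_ne_zero la_prime.ne_zero (Finset.prod_ne_zero_iff.2 fun x hx => (hQ x hx).pr.ne_zero)
  refine ⟨nonvan h1 h2 h4, fun F _ _ _ ι r hr V _ _ ρ hρ hc => ?_⟩
  refine ⟨hdim _ hδ (not_sq hQ) F ι r hr V ρ hρ hc, hrep d _ hd hδ ?_ F ι r hr V ρ hρ hc⟩
  intro x y hxy
  rw [h1, map_mul, map_pow] at hxy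
  have h5 := h3 x (algebraMap GaussianInt (FractionRing GaussianInt) e * y) (by
    rw [← hxy]
    ring)
  rcases mul_eq_zero.1 h5 with h6 | h6
  · exact absurd ((IsFractionRing.to_map_eq_zero_iff).1 h6) h2.ne_zero
  · exact h6

end Pool.Agent.Helper35K9.LW.Rep
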